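import Pool.Agent.Work.MP_db9399_core_helper75.Star
import Pool.Agent.Work.MP_db9399_all_helper75.FIN

/-!
# Total colourings from the exact colouring at the heavy vertices
-/

set_option autoImplicit false
set_option linter.unusedSectionVars false

namespace Pool.Agent.Work.MP_db9399_all

open Finset Classical

universe u

namespace Core

section
variable {V : Type u} [Fintype V] (I : Inp V)

/-- the rejected edges -/
def Rj (t1 : V → V → ℕ) (c1 : V → ℕ) (hs : ∀ a b, t1 a b = t1 b a) : SimpleGraph V where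
  Adj a b := (I.G.Adj a b ∧ a ∉ I.B ∧ b ∉ I.B) ∧ (t1 a b = c1 a ∨ t1 a b = c1 b)
  symm := ⟨fun a b h => ⟨⟨h.1.1.symm, h.1.2.2, h.1.2.1⟩, by rw [hs b a]; exact h.2.symm⟩⟩
  loopless := ⟨fun a h => I.G.loopless.irrefl a h.1.1⟩

/-- colours of the edges from `B` to `y` -/
noncomputable def FS (st : V → V → ℕ) (y : V) : Finset ℕ :=
  (nb I.G y ∩ I.B).image (fun b => st b y)

lemma mem_FS {st : V → V → ℕ} {y b : V} (hb : b ∈ I.B) (h : I.G.Adj b y) :
    st b y ∈ FS I st y :=
  mem_image.2 ⟨b, mem_inter.2 ⟨mem_nb.2 h.symm, hb⟩, rfl⟩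

lemma card_FS (st : V → V → ℕ) (y : V) : (FS I st y).card ≤ I.p :=
  card_image_le.trans (I.degB y)

/-- total colouring of `G` -/
theorem total (K Δ' C1 : ℕ) (hK : 2 * (K + 1) + 2 * I.p ≤ I.k - I.D) (hC1 : Δ' + C1 ≤ I.D)
    (hΔ' : ∀ v, v ∉ I.B → (nb I.G v).card ≤ Δ')
    (hM : ∀ (G : SimpleGraph V) (t : V → V → ℕ) (F : V → Finset ℕ),
      (∀ v, (nb G v).card ≤ Δ') → (∀ v w, t v w = t w v) →
      (∀ v, Set.InjOn (t v) (nb G v : Set V)) → (∀ v, (F v).card ≤ 2 * I.p) →
      ∃ c : V → ℕ, (∀ v, c v < Δ' + C1) ∧ (∀ v w, G.Adj v w → c v ≠ c w) ∧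
        (∀ v, c v ∉ F v) ∧ ∀ v, ((nb G v).filter (fun x => c x = t v x)).card ≤ K) :
    ∃ (c : V → ℕ) (t : V → V → ℕ), (∀ a b, t a b = t b a) ∧ (∀ v, c v < I.k) ∧
      (∀ a b, I.G.Adj a b → t a b < I.k) ∧ (∀ a b, I.G.Adj a b → c a ≠ c b) ∧
      (∀ a b, I.G.Adj a b → t a b ≠ c a) ∧
      (∀ a b b', I.G.Adj a b → I.G.Adj a b' → t a b = t a b' → b = b') ∧
      (∀ v ∈ I.W, c v = I.c0 v) ∧ ∀ a b, I.M.Adj a b → t a b = I.t0 a b := by
  obtain ⟨cB, hc⟩ := stage1 I
  obtain ⟨tB, hB⟩ := stage2 I hc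
  obtain ⟨st, t1, hO⟩ := stage5 I cB tB
  have hkD := I.kD
  -- vertex colours outside `B`
  obtain ⟨c1, m1, m2, m3, m4⟩ := hM (VIZ.inside I.G (univ \ I.B)) t1
    (fun y => FS I st y ∪ (nb I.G y ∩ I.B).image cB)
    (fun v => by
      by_cases hv : v ∈ I.B
      · have : nb (VIZ.inside I.G (univ \ I.B)) v = ∅ := by
          rw [eq_empty_iff_forall_notMem]
          intro w hw
          exact (mem_sdiff.1 (mem_nb.1 hw).2.1).2 hv
        rw [this]
        simp
      · have hsub : nb (VIZ.inside I.G (univ \ I.B)) v ⊆ nb I.G v := fun w hw =>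
          mem_nb.2 (mem_nb.1 hw).1
        exact (card_le_card hsub).trans (hΔ' v hv))
    hO.t1s
    (fun v => by
      intro b hb b' hb' e
      have h1 := mem_nb.1 (mem_coe.1 hb)
      have h2 := mem_nb.1 (mem_coe.1 hb')
      exact hO.t1i v b b' (mem_sdiff.1 h1.2.1).2 (mem_sdiff.1 h1.2.2).2 (mem_sdiff.1 h2.2.2).2
        h1.1 h2.1 e)
    (fun v => by
      have h1 := card_FS I st v
      have h2 : ((nb I.G v ∩ I.B).image cB).card ≤ I.p := card_image_le.trans (I.degB v)
      have h3 := card_union_le (FS I st v) ((nb I.G v ∩ I.B).image cB)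
      omega)
  have hin : ∀ a b, I.G.Adj a b → a ∉ I.B → b ∉ I.B →
      (VIZ.inside I.G (univ \ I.B)).Adj a b := fun a b h ha hb =>
    ⟨h, mem_sdiff.2 ⟨mem_univ _, ha⟩, mem_sdiff.2 ⟨mem_univ _, hb⟩⟩
  have hc1D : ∀ v, c1 v < I.D := fun v => lt_of_lt_of_le (m1 v) hC1
  have hc1st : ∀ b ∈ I.B, ∀ y, I.G.Adj b y → c1 y ≠ st b y := by
    intro b hb y hby e
    apply m3 y
    rw [e]
    exact mem_union_left _ (mem_FS I hb hby)
  have hc1cB : ∀ b ∈ I.B, ∀ y, I.G.Adj b y → c1 y ≠ cB b := by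
    intro b hb y hby e
    apply m3 y
    rw [e]
    exact mem_union_right _ (mem_image.2 ⟨b, mem_inter.2 ⟨mem_nb.2 hby.symm, hb⟩, rfl⟩)
  -- rejected edges
  set R := Rj I t1 c1 hO.t1s with hR
  have hRdeg : ∀ v, (nb R v).card ≤ K + 1 := by
    intro v
    by_cases hv : v ∈ I.B
    · have : nb R v = ∅ := by
        rw [eq_empty_iff_forall_notMem]
        intro w hw
        exact (mem_nb.1 hw).1.2.1 hv
      rw [this]
      simp
    · have hsub : nb R v ⊆ ((nb (VIZ.inside I.G (univ \ I.B)) v).filter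
          (fun x => c1 x = t1 v x)) ∪
          ((nb I.G v).filter (fun x => x ∉ I.B ∧ t1 v x = c1 v)) := by
        intro x hx
        obtain ⟨⟨h1, h2, h3⟩, h4⟩ := mem_nb.1 hx
        rw [mem_union, mem_filter, mem_filter, mem_nb, mem_nb]
        rcases h4 with h4 | h4
        · exact Or.inr ⟨h1, h3, h4⟩
        · exact Or.inl ⟨hin v x h1 h2 h3, h4.symm⟩
      have e1 : ((nb I.G v).filter (fun x => x ∉ I.B ∧ t1 v x = c1 v)).card ≤ 1 := by
        rw [card_le_one]
        intro a ha b hb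
        rw [mem_filter, mem_nb] at ha hb
        exact hO.t1i v a b hv ha.2.1 hb.2.1 ha.1 hb.1 (ha.2.2.trans hb.2.2.symm)
      exact (card_le_card hsub).trans ((card_union_le _ _).trans (Nat.add_le_add (m4 v) e1))
  obtain ⟨t3, s1, s2, s3⟩ := stmt_GRE R (K + 1) (2 * I.p) I.D
    (fun a b => FS I st a ∪ FS I st b) hRdeg (fun a b => union_comm _ _)
    (fun a b => by
      have h1 := card_FS I st a
      have h2 := card_FS I st b
      have h3 := card_union_le (FS I st a) (FS I st b)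
      omega)
  -- the colourings
  set c : V → ℕ := fun v => if v ∈ I.B then cB v else c1 v with hcdef
  have hcB : ∀ v ∈ I.B, c v = cB v := fun v hv => if_pos hv
  have hcN : ∀ v, v ∉ I.B → c v = c1 v := fun v hv => if_neg hv
  set tN : V → V → ℕ := fun a b => if R.Adj a b then t3 a b else t1 a b with htN
  have htN1 : ∀ a b, R.Adj a b → tN a b = t3 a b := fun a b h => if_pos h
  have htN2 : ∀ a b, ¬ R.Adj a b → tN a b = t1 a b := fun a b h => if_neg h
  set t : V → V → ℕ := fun a b => if a ∈ I.B then (if b ∈ I.B then tB a b else st a b) else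
    (if b ∈ I.B then st b a else tN a b) with ht
  have tBB : ∀ a ∈ I.B, ∀ b ∈ I.B, t a b = tB a b := fun a ha b hb => by simp [ht, ha, hb]
  have tBN : ∀ a ∈ I.B, ∀ b, b ∉ I.B → t a b = st a b := fun a ha b hb => by simp [ht, ha, hb]
  have tNB : ∀ a, a ∉ I.B → ∀ b ∈ I.B, t a b = st b a := fun a ha b hb => by simp [ht, ha, hb]
  have tNN : ∀ a, a ∉ I.B → ∀ b, b ∉ I.B → t a b = tN a b := fun a ha b hb => by
    simp [ht, ha, hb]
  have htNs : ∀ a b, tN a b = tN b a := by
    intro a b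
    by_cases h : R.Adj a b
    · rw [htN1 a b h, htN1 b a h.symm, s1]
    · rw [htN2 a b h, htN2 b a (fun h' => h h'.symm), hO.t1s]
  have hts : ∀ a b, t a b = t b a := by
    intro a b
    by_cases ha : a ∈ I.B <;> by_cases hb : b ∈ I.B
    · rw [tBB a ha b hb, tBB b hb a ha, hB.symm]
    · rw [tBN a ha b hb, tNB b hb a ha]
    · rw [tNB a ha b hb, tBN b hb a ha]
    · rw [tNN a ha b hb, tNN b hb a ha, htNs]
  -- facts about `tN`
  have htNlt : ∀ a b, I.G.Adj a b → a ∉ I.B → b ∉ I.B → tN a b < I.k := by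
    intro a b h ha hb
    by_cases hr : R.Adj a b
    · rw [htN1 a b hr]
      have := (s2 a b hr).2.1
      omega
    · rw [htN2 a b hr]
      have := hO.t1l a b ha hb h
      omega
  have htNc : ∀ a b, I.G.Adj a b → a ∉ I.B → b ∉ I.B → tN a b ≠ c1 a := by
    intro a b h ha hb
    by_cases hr : R.Adj a b
    · rw [htN1 a b hr]
      have := (s2 a b hr).1
      have := hc1D a
      omega
    · rw [htN2 a b hr]
      intro e
      exact hr ⟨⟨h, ha, hb⟩, Or.inl e⟩
  have htNst : ∀ b' ∈ I.B, ∀ a b, I.G.Adj b' a → I.G.Adj a b → a ∉ I.B → b ∉ I.B →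
      st b' a ≠ tN a b := by
    intro b' hb' a b h' h ha hb
    by_cases hr : R.Adj a b
    · rw [htN1 a b hr]
      intro e
      apply (s2 a b hr).2.2
      rw [← e]
      exact mem_union_left _ (mem_FS I hb' h')
    · rw [htN2 a b hr]
      exact hO.nt a ha b' hb' h' b hb h
  have htNi : ∀ a b b', a ∉ I.B → b ∉ I.B → b' ∉ I.B → I.G.Adj a b → I.G.Adj a b' →
      tN a b = tN a b' → b = b' := by
    intro a b b' ha hb hb' h h' e
    by_cases hr : R.Adj a b
    · by_cases hr' : R.Adj a b'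
      · rw [htN1 a b hr, htN1 a b' hr'] at e
        exact s3 a (mem_coe.2 (mem_nb.2 hr)) (mem_coe.2 (mem_nb.2 hr')) e
      · rw [htN1 a b hr, htN2 a b' hr'] at e
        have := (s2 a b hr).1
        have := hO.t1l a b' ha hb' h'
        omega
    · by_cases hr' : R.Adj a b'
      · rw [htN2 a b hr, htN1 a b' hr'] at e
        have := (s2 a b' hr').1
        have := hO.t1l a b ha hb h
        omega
      · rw [htN2 a b hr, htN2 a b' hr'] at e
        exact hO.t1i a b b' ha hb hb' h h' e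
  refine ⟨c, t, hts, fun v => ?_, fun a b h => ?_, fun a b h => ?_, fun a b h => ?_,
    fun a b b' h h' e => ?_, fun v hv => ?_, fun a b h => ?_⟩
  · by_cases hv : v ∈ I.B
    · rw [hcB v hv]; exact hc.lt v hv
    · rw [hcN v hv]
      have := hc1D v
      omega
  · by_cases ha : a ∈ I.B <;> by_cases hb : b ∈ I.B
    · rw [tBB a ha b hb]; exact hB.lt a ha b hb h
    · rw [tBN a ha b hb]; exact hO.lt a ha b hb h
    · rw [tNB a ha b hb]; exact hO.lt b hb a ha h.symm
    · rw [tNN a ha b hb]; exact htNlt a b h ha hb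
  · by_cases ha : a ∈ I.B <;> by_cases hb : b ∈ I.B
    · rw [hcB a ha, hcB b hb]; exact hc.pr a ha b hb h
    · rw [hcB a ha, hcN b hb]; exact (hc1cB a ha b h).symm
    · rw [hcN a ha, hcB b hb]; exact hc1cB b hb a h.symm
    · rw [hcN a ha, hcN b hb]; exact m2 a b (hin a b h ha hb)
  · by_cases ha : a ∈ I.B <;> by_cases hb : b ∈ I.B
    · rw [tBB a ha b hb, hcB a ha]; exact hB.ne a ha b hb h
    · rw [tBN a ha b hb, hcB a ha]; exact hO.ne a ha b hb h
    · rw [tNB a ha b hb, hcN a ha]; exact (hc1st b hb a h.symm).symm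
    · rw [tNN a ha b hb, hcN a ha]; exact htNc a b h ha hb
  · by_cases ha : a ∈ I.B
    · by_cases hb : b ∈ I.B <;> by_cases hb' : b' ∈ I.B
      · rw [tBB a ha b hb, tBB a ha b' hb'] at e
        exact hB.inj a ha b hb b' hb' h h' e
      · rw [tBB a ha b hb, tBN a ha b' hb'] at e
        exact absurd e.symm (hO.nB a ha b' hb' h' b hb h)
      · rw [tBN a ha b hb, tBB a ha b' hb'] at e
        exact absurd e (hO.nB a ha b hb h b' hb' h')
      · rw [tBN a ha b hb, tBN a ha b' hb'] at e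
        exact hO.inj a ha b hb h b' hb' h' e
    · by_cases hb : b ∈ I.B <;> by_cases hb' : b' ∈ I.B
      · rw [tNB a ha b hb, tNB a ha b' hb'] at e
        exact hO.inj' a ha b hb h.symm b' hb' h'.symm e
      · rw [tNB a ha b hb, tNN a ha b' hb'] at e
        exact absurd e (htNst b hb a b' h.symm h' ha hb')
      · rw [tNN a ha b hb, tNB a ha b' hb'] at e
        exact absurd e.symm (htNst b' hb' a b h'.symm h ha hb)
      · rw [tNN a ha b hb, tNN a ha b' hb'] at e
        exact htNi a b b' ha hb hb' h h' e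
  · rw [hcB v (I.WB hv)]; exact hc.w v hv
  · have ha := I.WB (I.MW a b h)
    have hb := I.WB (I.MW b a h.symm)
    rw [tBB a ha b hb]
    exact hB.m a b h

end

end Core

end Pool.Agent.Work.MP_db9399_all
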