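import Pool.Agent.Work.MP_db9399_core_helper75.Fin1

/-!
# Graphs in which every vertex has few neighbours of almost maximum degree
-/

set_option autoImplicit false
set_option linter.unusedSectionVars false

namespace Pool.Agent.Work.MP_db9399_all

open Finset Classical
open _root_.MP_db9399_co

universe u

/-- the theorem, with `nb` -/
theorem sparse_core : ∃ C : ℕ, ∀ {V : Type u} [Fintype V] (G : SimpleGraph V) (k m : ℕ),
      (∀ v, (nb G v).card + 1 ≤ k) → C * (m + 1) ≤ k →
      (∀ v, ((nb G v).filter (fun w => k < (nb G w).card + C * (m + 1))).card ≤ m) →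
      ∀ H : G.Subgraph, IsDistThreeMatching H → EveryTotalColoringExtends H (Fin k) := by
  obtain ⟨C0, hC0⟩ := all_MVTL.{u}
  refine ⟨15 * C0 + 11, fun {V} _ G k m hdeg hk hcore H hH c₀ t₀ h0 => ?_⟩
  obtain ⟨T, hT⟩ : ∃ T : ℕ, T = (15 * C0 + 11) * (m + 1) := ⟨_, rfl⟩
  rw [← hT] at hk hcore
  obtain ⟨K, hK⟩ : ∃ K : ℕ, K = C0 * (2 * (m + 2) + 1) := ⟨_, rfl⟩
  have hTK : 3 * K + 2 * m + 11 ≤ T := by
    rw [hT, hK]
    nlinarith [Nat.zero_le (C0 * m), Nat.zero_le C0, Nat.zero_le m]
  have hkpos : 0 < k := by omega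
  set W : Finset V := univ.filter (fun v => v ∈ H.verts) with hW
  have hmW : ∀ v, v ∈ W ↔ v ∈ H.verts := fun v => by simp [hW]
  set B : Finset V := univ.filter (fun w => k < (nb G w).card + T) ∪ W with hB
  have hmB : ∀ v, v ∉ B → (nb G v).card + T ≤ k := by
    intro v hv
    rw [hB, mem_union, not_or, mem_filter] at hv
    have := hv.1
    simp only [mem_univ, true_and, not_lt] at this
    exact this
  let I : Core.Inp V :=
    { G := G
      M := H.spanningCoe
      W := W
      B := B
      c0 := fun v => ((c₀ v : Fin k) : ℕ)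
      t0 := fun a b => ((t₀ s(a, b) : Fin k) : ℕ)
      k := k
      D := k - (2 * K + 2 * m + 10)
      p := m + 2
      WB := subset_union_right
      MG := fun a b h => H.adj_sub (by simpa using h)
      MW := fun a b h => (hmW a).2 (H.edge_vert (by simpa using h))
      Mu := fun a b c h h' => FIN.uniq hH (by simpa using h) (by simpa using h')
      WM := fun a ha b hb h => by
        simpa using FIN.adj_of_verts hH ((hmW a).1 ha) ((hmW b).1 hb) h
      t0s := fun a b => by
        simp only [Sym2.eq_swap (a := a) (b := b)]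
      c0p := fun a b h e => h0.vertex a b h (Fin.ext e)
      t0c := fun a b h e => h0.incidence a b h (Fin.ext e)
      c0k := fun a _ => (c₀ a).2
      t0k := fun a b _ => (t₀ _).2
      deg := hdeg
      degB := fun v => by
        have hsub : nb G v ∩ B ⊆ ((nb G v).filter (fun w => k < (nb G w).card + T)) ∪
            FIN.hv H v := by
          intro w hw
          rw [mem_inter, hB, mem_union, mem_filter] at hw
          rw [mem_union, mem_filter]
          rcases hw.2 with h | h
          · exact Or.inl ⟨hw.1, h.2⟩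
          · exact Or.inr (FIN.mem_hv.2 ⟨FIN.mem_nb.1 hw.1, (hmW w).1 h⟩)
        have e1 := card_le_card hsub
        have e2 := card_union_le ((nb G v).filter (fun w => k < (nb G w).card + T)) (FIN.hv H v)
        have e3 := hcore v
        have e4 := FIN.card_hv hH v
        omega
      degL := fun v hv => by
        have := hmB v hv
        omega
      kD := by omega }
  obtain ⟨c, t, hts, hck, htk, hcp, htc, hti, hcW, htM⟩ := Core.total I K (k - T) K
    (show 2 * (K + 1) + 2 * (m + 2) ≤ k - (k - (2 * K + 2 * m + 10)) by omega)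
    (show k - T + K ≤ k - (2 * K + 2 * m + 10) by omega)
    (fun v hv => by
      have := hmB v hv
      show (nb G v).card ≤ k - T
      omega)
    (fun G' t' F' h1 h2 h3 h4 => by
      obtain ⟨c, g1, g2, g3, g4⟩ := hC0 (2 * (m + 2)) G' (k - T) t' F' h1 h2 h3 h4
      exact ⟨c, fun v => by rw [hK]; exact g1 v, g2, g3, fun v => by rw [hK]; exact g4 v⟩)
  have htk' : ∀ a b, G.Adj a b → t a b < k := htk
  have hck' : ∀ v, c v < k := hck
  set TT : Sym2 V → ℕ := Sym2.lift ⟨t, hts⟩ with hTT
  have hTTlt : ∀ v w, G.Adj v w → TT s(v, w) < k := htk'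
  refine ⟨fun v => ⟨c v, hck' v⟩, fun e => if h : TT e < k then ⟨TT e, h⟩ else ⟨0, hkpos⟩,
    ⟨?_, ?_, ?_⟩, ?_, ?_⟩
  · intro u v huv h
    exact hcp u v huv (by simpa using h)
  · intro u v w huv huw hvw h
    rw [dif_pos (hTTlt u v huv), dif_pos (hTTlt u w huw)] at h
    exact hvw (hti u v w huv huw (by simpa [hTT] using h))
  · intro u v huv h
    rw [dif_pos (hTTlt u v huv)] at h
    exact htc u v huv (by simpa [hTT] using h)
  · intro v hv
    apply Fin.ext
    exact hcW v ((hmW v).2 hv)
  · intro e
    induction e using Sym2.ind with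
    | _ v w =>
      intro he
      have h1 : H.Adj v w := he
      have h2 : G.Adj v w := H.adj_sub h1
      simp only
      rw [dif_pos (hTTlt v w h2)]
      apply Fin.ext
      exact htM v w (by show H.spanningCoe.Adj v w; simpa using h1)

/-- the theorem, with Mathlib's degrees -/
theorem sparse_core_final : ∃ C : ℕ, ∀ (V : Type u) [Fintype V] (G : SimpleGraph V)
    [DecidableRel G.Adj] (k m : ℕ), G.maxDegree + 1 ≤ k → C * (m + 1) ≤ k →
      (∀ v, ((G.neighborFinset v).filter (fun w => k < G.degree w + C * (m + 1))).card ≤ m) →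
      ∀ H : G.Subgraph, IsDistThreeMatching H → EveryTotalColoringExtends H (Fin k) := by
  obtain ⟨C, h⟩ := sparse_core.{u}
  have hnb : ∀ (V : Type u) [Fintype V] (G : SimpleGraph V) [DecidableRel G.Adj] (v : V),
      nb G v = G.neighborFinset v := by
    intro V _ G _ v
    ext w
    simp [nb]
  refine ⟨C, fun V _ G _ k m hk hC hcore H hH => h G k m (fun v => ?_) hC (fun v => ?_) H hH⟩
  · rw [hnb, G.card_neighborFinset_eq_degree]
    exact (Nat.add_le_add_right (G.degree_le_maxDegree v) 1).trans hk
  · refine le_trans (le_of_eq ?_) (hcore v)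
    congr 1
    ext w
    rw [mem_filter, mem_filter, hnb, hnb, G.card_neighborFinset_eq_degree]

end Pool.Agent.Work.MP_db9399_all
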