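import Pool.Agent.Work.MP_db9399_all_helper95.VIZ

/-!
# An edge colouring theorem of Fournier type

A graph of maximum degree at most `D` in which the vertices of degree `D` are independent has a
proper edge colouring with `D` colours.
-/

set_option autoImplicit false
set_option linter.unusedSectionVars false

namespace Pool.Agent.Work.MP_db9399_all.VIZ

open Finset Classical

universe u

variable {V : Type u} [Fintype V]

/-- insertion of a vertex -/
theorem insert_vertex (G : SimpleGraph V) (K : Finset ℕ) (W : Finset V) (v : V) (hv : v ∉ W)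
    (t : V → V → ℕ) (ht : Col K (inside G W) t) (hS : (nb G v ∩ W).card ≤ K.card)
    (h2 : ∀ u ∈ nb G v ∩ W, (nb G u ∩ W).card + 2 ≤ K.card) :
    ∃ t' : V → V → ℕ, Col K (inside G (insert v W)) t' := by
  set S := nb G v ∩ W with hSdef
  set M : V → Finset ℕ := fun u => K.filter (fun l => Miss (inside G W) t u l) with hM
  have hMcard : ∀ u ∈ S, 2 ≤ (M u).card := by
    intro u hu
    have h1 : K \ (M u) ⊆ (nb G u ∩ W).image (t u) := by
      intro l hl
      rw [Finset.mem_sdiff] at hl
      have h3 : ¬ Miss (inside G W) t u l := fun h => hl.2 (mem_filter.2 ⟨hl.1, h⟩)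
      unfold Miss at h3
      push Not at h3
      obtain ⟨b, hb, hbl⟩ := h3
      exact mem_image.2 ⟨b, Finset.mem_inter.2 ⟨mem_filter.2 ⟨mem_univ _, hb.1⟩, hb.2.2⟩, hbl⟩
    have h3 := (Finset.card_le_card h1).trans Finset.card_image_le
    rw [Finset.card_sdiff_of_subset (Finset.filter_subset _ _)] at h3
    have h4 := h2 u hu
    have h5 : (M u).card ≤ K.card := Finset.card_le_card (Finset.filter_subset _ _)
    have h7 : (M u).card = (K.filter (fun l => Miss (inside G W) t u l)).card := rfl
    omega
  obtain ⟨t', s, ht', hsinj, hs⟩ := main K.card K rfl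
    (inside G W) t S M v ht hS (fun u _ => Finset.filter_subset _ _)
    (fun u _ l hl => (mem_filter.1 hl).2) (fun u hu => by have := hMcard u hu; omega)
    (fun u hu _ => hMcard u hu)
  have hSmem : ∀ b, (inside G (insert v W)).Adj v b → b ∈ S := by
    intro b hb
    refine Finset.mem_inter.2 ⟨mem_filter.2 ⟨mem_univ _, hb.1⟩, ?_⟩
    rcases Finset.mem_insert.1 hb.2.2 with h | h
    · subst h
      exact absurd hb.1 (G.loopless.irrefl _)
    · exact h
  have hold : ∀ a b, a ≠ v → b ≠ v → (inside G (insert v W)).Adj a b →
      (inside G W).Adj a b := fun a b ha hb h =>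
    ⟨h.1, (Finset.mem_insert.1 h.2.1).resolve_left ha, (Finset.mem_insert.1 h.2.2).resolve_left hb⟩
  refine ⟨fun a b => if a = v then s b else if b = v then s a else t' a b, fun a b => ?_,
    fun a b hab => ?_, fun a b b' hb hb' e => ?_⟩
  · by_cases ha : a = v
    · by_cases hb : b = v
      · rw [ha, hb]
      · rw [if_pos ha, if_neg hb, if_pos ha]
    · by_cases hb : b = v
      · rw [if_neg ha, if_pos hb, if_pos hb]
      · rw [if_neg ha, if_neg hb, if_neg hb, if_neg ha, ht'.symm a b]
  · by_cases ha : a = v
    · rw [if_pos ha]
      subst ha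
      exact (hs b (hSmem b hab)).1
    · rw [if_neg ha]
      by_cases hb : b = v
      · rw [if_pos hb]
        subst hb
        exact (hs a (hSmem a hab.symm)).1
      · rw [if_neg hb]
        exact ht'.mem a b (hold a b ha hb hab)
  · by_cases ha : a = v
    · rw [if_pos ha, if_pos ha] at e
      subst ha
      exact hsinj (Finset.mem_coe.2 (hSmem b hb)) (Finset.mem_coe.2 (hSmem b' hb')) e
    · rw [if_neg ha, if_neg ha] at e
      by_cases hbv : b = v
      · by_cases hbv' : b' = v
        · rw [hbv, hbv']
        · rw [if_pos hbv, if_neg hbv'] at e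
          subst hbv
          exact absurd e.symm ((hs a (hSmem a hb.symm)).2 b' (hold a b' ha hbv' hb'))
      · by_cases hbv' : b' = v
        · rw [if_neg hbv, if_pos hbv'] at e
          subst hbv'
          exact absurd e ((hs a (hSmem a hb'.symm)).2 b (hold a b ha hbv hb))
        · rw [if_neg hbv, if_neg hbv'] at e
          exact ht'.inj a b b' (hold a b ha hbv hb) (hold a b' ha hbv' hb') e

/-- **Fournier's theorem** (independent core): vertices of degree `D` are independent. -/
theorem four (G : SimpleGraph V) (D : ℕ) (B : Finset V)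
    (h1 : ∀ v, v ∉ B → (nb G v).card + 1 ≤ D) (h2 : ∀ v ∈ B, (nb G v).card ≤ D)
    (hB : ∀ u ∈ B, ∀ v ∈ B, ¬ G.Adj u v) : ∃ t : V → V → ℕ, Col (range D) G t := by
  have key : ∀ P : Finset V, P ⊆ B →
      ∃ t : V → V → ℕ, Col (range D) (inside G ((univ \ B) ∪ P)) t := by
    intro P
    induction P using Finset.induction_on with
    | empty =>
      intro _
      rcases Nat.eq_zero_or_pos D with h0 | hD
      · refine ⟨fun _ _ => 0, fun _ _ => rfl, fun a b h => ?_, fun a b b' h _ _ => ?_⟩
        all_goals
          exfalso
          have ha : a ∉ B := by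
            have := h.2.1
            rw [union_empty] at this
            exact (mem_sdiff.1 this).2
          have := h1 a ha
          omega
      · obtain ⟨t, ht⟩ := vizing_aux (inside G (univ \ B)) (D - 1) (by
          intro v
          by_cases hv : v ∈ B
          · have : nb (inside G (univ \ B)) v = ∅ := by
              rw [eq_empty_iff_forall_notMem]
              intro w hw
              exact (mem_sdiff.1 (mem_filter.1 hw).2.2.1).2 hv
            rw [this]
            simp
          · have hsub : nb (inside G (univ \ B)) v ⊆ nb G v := by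
              intro w hw
              exact mem_filter.2 ⟨mem_univ _, (mem_filter.1 hw).2.1⟩
            have := card_le_card hsub
            have := h1 v hv
            omega) univ
        have hD1 : D - 1 + 1 = D := by omega
        rw [hD1] at ht
        refine ⟨t, ht.symm, fun a b h => ?_, fun a b b' h h' e => ?_⟩
        · rw [union_empty] at h
          exact ht.mem a b ⟨h, mem_univ _, mem_univ _⟩
        · rw [union_empty] at h h'
          exact ht.inj a b b' ⟨h, mem_univ _, mem_univ _⟩ ⟨h', mem_univ _, mem_univ _⟩ e
    | insert v P hv ih =>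
      intro hP
      rw [insert_subset_iff] at hP
      obtain ⟨t, ht⟩ := ih hP.2
      have hvW : v ∉ (univ \ B) ∪ P := by
        rw [mem_union, mem_sdiff, not_or]
        exact ⟨fun h => h.2 hP.1, hv⟩
      obtain ⟨t', ht'⟩ := insert_vertex G (range D) ((univ \ B) ∪ P) v hvW t ht (by
          rw [card_range]
          exact (card_le_card inter_subset_left).trans (h2 v hP.1))
        (by
          intro u hu
          rw [card_range]
          have huv : G.Adj v u := (mem_filter.1 (mem_inter.1 hu).1).2
          have huB : u ∉ B := fun h => hB v hP.1 u h huv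
          have e1 := h1 u huB
          have hvu : v ∈ nb G u := mem_filter.2 ⟨mem_univ _, huv.symm⟩
          have hsub : nb G u ∩ ((univ \ B) ∪ P) ⊆ (nb G u).erase v := by
            intro w hw
            rw [mem_inter] at hw
            rw [mem_erase]
            refine ⟨?_, hw.1⟩
            rintro rfl
            exact hvW hw.2
          have e2 := card_le_card hsub
          rw [card_erase_of_mem hvu] at e2
          have e3 := card_pos.2 ⟨v, hvu⟩
          omega)
      refine ⟨t', ?_⟩
      rwa [← union_insert] at ht'
  obtain ⟨t, ht⟩ := key B Subset.rfl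
  have hU : (univ \ B) ∪ B = univ := by
    rw [sdiff_union_self_eq_union]
    simp
  rw [hU] at ht
  exact ⟨t, ht.symm, fun a b h => ht.mem a b ⟨h, mem_univ _, mem_univ _⟩,
    fun a b b' h h' e => ht.inj a b b' ⟨h, mem_univ _, mem_univ _⟩ ⟨h', mem_univ _, mem_univ _⟩ e⟩

end Pool.Agent.Work.MP_db9399_all.VIZ
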