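import Pool.Agent.Work.MP_db9399_all_helper75.Final

/-!
Linear dependence on the number `k` of forbidden colours in the vertex colouring theorem: the
restatement of the blocks DSM, DE3, DPH, SP1, SP2 and MVT with explicit thresholds.
-/

set_option autoImplicit false
set_option linter.unusedSectionVars false

namespace Pool.Agent.Work.MP_db9399_all

open Finset Classical

universe u

/-- DSM with the explicit threshold -/
def Stmt_DSML : Prop :=
  ∀ k : ℕ, ∀ {V : Type u} [Fintype V] (X : DCtx V) (t : V → V → ℕ)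
    (F : V → Finset ℕ), k * 10 ^ 13 + 10 ^ 4 ≤ X.Δ → (∀ v w, t v w = t w v) →
    (∀ v, Set.InjOn (t v) (nb X.G v : Set V)) → (∀ v, (F v).card ≤ k) →
    (∀ j a, (((bs X.blk j).filter (fun z => X.e j a ∈ F z)).card : ℝ) ≤ X.Δ / 10 ^ 13) →
    ∃ (ι : Type u) (_ : Fintype ι) (B : ι → Finset (V × Fin (X.Δ + 1) × Fin (X.Δ + 1))),
      (∀ i, (B i).Nonempty) ∧
      (∀ j s a, ∑ i ∈ univ.filter (fun i => Touch (B i) j s a),
        pr (fun ω : Cfg V (X.Δ + 1) => Holds ω (B i)) *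
          Real.exp (2 * ∑ β ∈ B i, X.T β.1 β.2.1) ≤ X.T j s - 1 / 10 ^ 13) ∧
      ∀ ω : Cfg V (X.Δ + 1), (∀ i, ¬ Holds ω (B i)) →
        (∀ z z', X.blk z ≠ none → X.blk z' ≠ none → X.G.Adj z z' → X.vc ω z ≠ X.vc ω z') ∧
        (∀ z, X.blk z ≠ none → X.vc ω z ∉ F z) ∧
        (∀ v, ((dn X.G X.blk v).filter (fun x => X.vc ω x = t v x)).card ≤ 20)

/-- DE3 with the explicit threshold -/
def Stmt_DE3L : Prop :=
  ∀ h : ℕ, ∀ {V : Type u} [Fintype V] (X : DCtx V) (x : V), X.h = h →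
    10 ^ 12 * (h + 2) ≤ X.Δ →
    X.blk x = none → (X.Δ : ℝ) / 100 ≤ ((dn X.G X.blk x).card : ℝ) →
    (∀ i, ((nb X.G x ∩ bs X.blk i).card : ℝ) + X.Δ / (8 * 10 ^ 6) ≤
      ((dn X.G X.blk x).card : ℝ)) →
    Pack X.T (X.tb x) (Real.exp (-(X.Δ : ℝ) / 10 ^ 28)) (fun ω =>
      (((dn X.G X.blk x).image (X.vc ω)).card : ℝ) + X.Δ / 10 ^ 29 ≤
        ((dn X.G X.blk x).card : ℝ))

/-- DPH with a linear threshold -/
def Stmt_DPHL : Prop :=
  ∃ A : ℕ, ∀ k h : ℕ, ∀ {V : Type u} [Fintype V] (X : DCtx V) (t : V → V → ℕ)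
    (F : V → Finset ℕ), X.h = h → A * (k + h + 1) ≤ X.Δ → (∀ v w, t v w = t w v) →
    (∀ v, Set.InjOn (t v) (nb X.G v : Set V)) → (∀ v, (F v).card ≤ k) →
    (∀ j a, (((bs X.blk j).filter (fun z => X.e j a ∈ F z)).card : ℝ) ≤ X.Δ / 10 ^ 13) →
    ∃ c : V → ℕ, (∀ z, X.blk z ≠ none → c z < X.Δ + 1 + h) ∧
      (∀ z z', X.blk z ≠ none → X.blk z' ≠ none → X.G.Adj z z' → c z ≠ c z') ∧
      (∀ z, X.blk z ≠ none → c z ∉ F z) ∧
      (∀ v, ((dn X.G X.blk v).filter (fun x => c x = t v x)).card ≤ 20) ∧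
      PropP X.G X.Δ X.blk c

/-- SP1 with a linear threshold -/
def Stmt_SP1L : Prop :=
  ∃ γ : ℝ, 0 < γ ∧ ∃ A : ℕ, ∀ k h : ℕ, ∀ {V : Type u} [Fintype V] (G : SimpleGraph V)
    (Δ N : ℕ) (t : V → V → ℕ) (F : V → Finset ℕ) (blk : V → Option V) (c : V → ℕ),
    A * (k + h + 1) ≤ Δ → Δ + k + 1 ≤ N → N ≤ Δ + h → (∀ v, (nb G v).card ≤ Δ) →
    (∀ v, (F v).card ≤ k) → IsDec G Δ (1 / 10 ^ 6) (1 / 10 ^ 13) blk →
    PSt G N F c (ss blk) → PropP G Δ blk c →
    ∃ (c' : V → ℕ) (U : Finset V), U ⊆ ss blk ∧ (∀ x, x ∉ ss blk → c' x = c x) ∧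
      PSt G N F c' U ∧
      (∀ v, ((nb G v).filter (fun x => x ∈ ss blk ∧ x ∉ U ∧ c' x = t v x)).card ≤ 1) ∧
      AfterOne G Δ N F blk γ c' U

/-- SP2 with a linear threshold -/
def Stmt_SP2L : Prop :=
  ∀ γ : ℝ, 0 < γ → ∃ γ' : ℝ, 0 < γ' ∧ ∃ A : ℕ, ∀ k h : ℕ, ∀ {V : Type u} [Fintype V]
    (G : SimpleGraph V) (Δ N : ℕ) (t : V → V → ℕ) (F : V → Finset ℕ) (blk : V → Option V)
    (c : V → ℕ) (U : Finset V),
    A * (k + h + 1) ≤ Δ → Δ + k + 1 ≤ N → N ≤ Δ + h → (∀ v, (nb G v).card ≤ Δ) →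
    (∀ v, (F v).card ≤ k) → U ⊆ ss blk → PSt G N F c U → AfterOne G Δ N F blk γ c U →
    ∃ (c' : V → ℕ) (U' : Finset V), U' ⊆ U ∧ (∀ x, x ∉ U → c' x = c x) ∧
      PSt G N F c' U' ∧
      (∀ v, ((nb G v).filter (fun x => x ∈ U ∧ x ∉ U' ∧ c' x = t v x)).card ≤ 1) ∧
      AfterTwo G Δ (Sb G Δ blk) γ' c' U'

/-- MVT with linear constants -/
def Stmt_MVTL : Prop :=
  ∃ C : ℕ, ∀ k : ℕ, ∀ {V : Type u} [Fintype V] (G : SimpleGraph V) (Δ : ℕ)
    (t : V → V → ℕ) (F : V → Finset ℕ), (∀ v, (nb G v).card ≤ Δ) →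
    (∀ v w, t v w = t w v) → (∀ v, Set.InjOn (t v) (nb G v : Set V)) →
    (∀ v, (F v).card ≤ k) →
    ∃ c : V → ℕ, (∀ v, c v < Δ + C * (k + 1)) ∧ (∀ v w, G.Adj v w → c v ≠ c w) ∧
      (∀ v, c v ∉ F v) ∧ ∀ v, ((nb G v).filter (fun x => c x = t v x)).card ≤ C * (k + 1)


/-- greedy vertex colouring, extending `c0` from `P` -/
theorem greedy_ext {V : Type u} [Fintype V] (G : SimpleGraph V) (P : Finset V) (c0 : V → ℕ)
    (F : V → Finset ℕ) (N M : ℕ) (h : ∀ v, v ∉ P → (nb G v).card + (F v).card < M) :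
    ∃ c : V → ℕ, (∀ v ∈ P, c v = c0 v) ∧ (∀ v, v ∉ P → N ≤ c v ∧ c v < N + M ∧ c v ∉ F v) ∧
      ∀ v w, v ∉ P → G.Adj v w → c v ≠ c w := by
  have key : ∀ S : Finset V, Disjoint S P → ∃ c : V → ℕ, (∀ v, v ∉ S → c v = c0 v) ∧
      (∀ v ∈ S, N ≤ c v ∧ c v < N + M ∧ c v ∉ F v) ∧
      ∀ v ∈ S, ∀ w, w ∈ S ∨ w ∈ P → G.Adj v w → c v ≠ c w := by
    intro S
    induction S using Finset.induction_on with
    | empty =>
      intro _
      exact ⟨c0, fun _ _ => rfl, fun v hv => absurd hv (notMem_empty v),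
        fun v hv => absurd hv (notMem_empty v)⟩
    | insert x S hx ih =>
      intro hd
      rw [disjoint_insert_left] at hd
      obtain ⟨c, h1, h2, h3⟩ := ih hd.2
      obtain ⟨a, ha, hab⟩ : ∃ a ∈ Ico N (N + M), a ∉ F x ∪ (nb G x).image c := by
        by_contra hcon
        push Not at hcon
        have e1 := card_le_card (fun a ha => hcon a ha :
          Ico N (N + M) ⊆ F x ∪ (nb G x).image c)
        rw [Nat.card_Ico] at e1
        have e2 := card_union_le (F x) ((nb G x).image c)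
        have e3 : ((nb G x).image c).card ≤ (nb G x).card := card_image_le
        have e4 := h x hd.1
        omega
      rw [mem_Ico] at ha
      rw [mem_union, not_or] at hab
      have hax : ∀ w, G.Adj x w → c w ≠ a := fun w hw e =>
        hab.2 (mem_image.2 ⟨w, by simp [nb, hw], e⟩)
      refine ⟨Function.update c x a, fun v hv => ?_, fun v hv => ?_, fun v hv w hw hvw => ?_⟩
      · rw [mem_insert, not_or] at hv
        rw [Function.update_of_ne hv.1]
        exact h1 v hv.2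
      · by_cases hvx : v = x
        · subst hvx
          rw [Function.update_self]
          exact ⟨ha.1, ha.2, hab.1⟩
        · rw [Function.update_of_ne hvx]
          exact h2 v ((mem_insert.1 hv).resolve_left hvx)
      · by_cases hvx : v = x
        · subst hvx
          rw [Function.update_self, Function.update_of_ne hvw.ne']
          exact (hax w hvw).symm
        · by_cases hwx : w = x
          · subst hwx
            rw [Function.update_self, Function.update_of_ne hvx]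
            exact hax v hvw.symm
          · rw [Function.update_of_ne hvx, Function.update_of_ne hwx]
            refine h3 v ((mem_insert.1 hv).resolve_left hvx) w ?_ hvw
            rcases hw with hw | hw
            · exact Or.inl ((mem_insert.1 hw).resolve_left hwx)
            · exact Or.inr hw
  obtain ⟨c, h1, h2, h3⟩ := key (univ \ P) sdiff_disjoint
  refine ⟨c, fun v hv => h1 v (by simp [hv]), fun v hv => h2 v (by simp [hv]),
    fun v w hv hvw => h3 v (by simp [hv]) w ?_ hvw⟩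
  by_cases hw : w ∈ P
  · exact Or.inr hw
  · exact Or.inl (by simp [hw])

/-- greedy vertex colouring with forbidden colours -/
theorem greedy_vertex {V : Type u} [Fintype V] (G : SimpleGraph V) (Δ : ℕ) (F : V → Finset ℕ)
    (k : ℕ) (hd : ∀ v, (nb G v).card ≤ Δ) (hF : ∀ v, (F v).card ≤ k) :
    ∃ c : V → ℕ, (∀ v, c v < Δ + k + 1) ∧ (∀ v w, G.Adj v w → c v ≠ c w) ∧ ∀ v, c v ∉ F v := by
  obtain ⟨c, _, h2, h3⟩ := greedy_ext G ∅ (fun _ => 0) F 0 (Δ + k + 1) (fun v _ => by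
    have := hd v
    have := hF v
    omega)
  refine ⟨c, fun v => ?_, fun v w h => h3 v w (notMem_empty _) h, fun v => ?_⟩
  · have := (h2 v (notMem_empty _)).2.1
    omega
  · exact (h2 v (notMem_empty _)).2.2

open DSM in
theorem stmt_DSML (hPRC : Stmt_PRC.{u}) (hPRD : Stmt_PRD.{u}) : Stmt_DSML.{u} := by
  intro k V _ X t F hΔ hsym hinj hk hF
  refine ⟨{B : Finset (Atm X) // Ev X t F B}, inferInstance, fun B => B.1, ?_, ?_, ?_⟩
  · rintro ⟨B, hB⟩
    rcases hB with ⟨z, z', b, b', -, -, -, -, -, rfl⟩ | ⟨z, b, -, -, rfl⟩ | ⟨v, Y, -, hY, -, rfl⟩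
    · exact ⟨_, Finset.mem_insert_self _ _⟩
    · exact ⟨_, Finset.mem_singleton_self _⟩
    · have : Y.Nonempty := by
        rw [← Finset.card_pos]; omega
      exact this.image _
  · intro j s a
    have h := total X hPRC hPRD t F k hΔ hsym hinj hk hF j s a
    refine le_trans (le_of_eq ?_) h
    change ∑ i ∈ univ.filter (fun i : {B : Finset (Atm X) // Ev X t F B} => Touch i.1 j s a),
      wt X i.1 = _
    refine Finset.sum_bij (fun i _ => i.1) ?_ ?_ ?_ ?_
    · intro i hi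
      rw [Finset.mem_filter] at hi ⊢
      exact ⟨Finset.mem_univ _, i.2, hi.2⟩
    · intro i _ i' _ h
      exact Subtype.ext h
    · intro B hB
      rw [Finset.mem_filter] at hB
      exact ⟨⟨B, hB.2.1⟩, by rw [Finset.mem_filter]; exact ⟨Finset.mem_univ _, hB.2.2⟩, rfl⟩
    · intro i _; rfl
  · intro ω hω
    have hvc : ∀ z, X.vc ω z = eb X z (ω ((X.blk z).getD z) (X.idx z)) := fun z => rfl
    have hat : ∀ z, Holds ω {at' X z (ω ((X.blk z).getD z) (X.idx z))} := by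
      intro z β hβ
      rw [Finset.mem_singleton] at hβ
      subst hβ
      rfl
    refine ⟨?_, ?_, ?_⟩
    · intro z z' h1 h2 hadj heq
      by_cases hb : X.blk z = X.blk z'
      · obtain ⟨j, hj⟩ := Option.ne_none_iff_exists'.1 h1
        have hz : z ∈ bs X.blk j := (mem_bs' X).2 hj
        have hz' : z' ∈ bs X.blk j := (mem_bs' X).2 (hb ▸ hj)
        have hne : z ≠ z' := hadj.ne
        have hidx : X.idx z ≠ X.idx z' := fun h => X.clsind j z hz z' hz' hne h hadj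
        rw [hvc, hvc] at heq
        have hj' : X.blk z' = some j := hb ▸ hj
        unfold eb at heq
        rw [hj, hj'] at heq
        simp only [Option.getD_some] at heq
        exact hidx ((ω j).injective (X.einj j heq))
      · refine hω ⟨_, Or.inl ⟨z, z', _, _, h1, h2, hb, hadj, heq, rfl⟩⟩ ?_
        intro β hβ
        rw [Finset.mem_insert, Finset.mem_singleton] at hβ
        rcases hβ with hβ | hβ <;> subst hβ <;> rfl
    · intro z h1 h2
      exact hω ⟨_, Or.inr (Or.inl ⟨z, _, h1, h2, rfl⟩)⟩ (hat z)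
    · intro v
      by_contra hcon
      push Not at hcon
      obtain ⟨Y, hY, hc⟩ := Finset.exists_subset_card_eq
        (s := (dn X.G X.blk v).filter (fun x => X.vc ω x = t v x)) (n := 21) (by omega)
      have hb : ∀ x ∈ Y, eb X x (ω ((X.blk x).getD x) (X.idx x)) = t v x := fun x hx =>
        (Finset.mem_filter.1 (hY hx)).2
      refine hω ⟨_, Or.inr (Or.inr ⟨v, Y, fun x hx => (Finset.mem_filter.1 (hY hx)).1, hc,
        fun x hx => ⟨_, hb x hx⟩, rfl⟩)⟩ ?_
      intro β hβ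
      unfold BR at hβ
      rw [Finset.mem_image] at hβ
      obtain ⟨x, hx, rfl⟩ := hβ
      rw [iv_eb X (hb x hx)]
      rfl


open DE3 in
/-- **Block DE3** -/
theorem stmt_DE3L (hPE3 : Stmt_PE3.{u}) : Stmt_DE3L.{u} := by
  intro h V _ X x hXh hΔ hx hdn hconc
  obtain ⟨g, r, y, p1, p2, p3, p4, p5, p6, p7⟩ := param h X.Δ hΔ
  have hD : (10 : ℝ) ^ 12 * (h + 2) ≤ X.Δ := by exact_mod_cast hΔ
  have hh : (0 : ℝ) ≤ h := Nat.cast_nonneg _
  have hD0 : (0 : ℝ) < X.Δ := by linarith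
  have hDbig : (10 : ℝ) ^ 12 ≤ X.Δ := by linarith
  have y1 : (X.Δ : ℝ) / 800 ≤ y := by rw [p5]; exact Nat.le_ceil _
  have y2 : (y : ℝ) < (X.Δ : ℝ) / 800 + 1 := by rw [p5]; exact Nat.ceil_lt_add_one (by positivity)
  have ypos : 0 < y := by
    have : (0 : ℝ) < y := by linarith
    exact_mod_cast this
  have hsplit : ∀ S : Finset V, ((dS X x S).card : ℝ) + ((dC X x S).card : ℝ) =
      ((dn X.G X.blk x).card : ℝ) := fun S => by exact_mod_cast dS_add_dC X x S
  have hS2 : ∀ S : Finset V, ((dS X x S).card : ℝ) ≤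
      2 * (((X.tch x).filter (fun p => p.1 ∈ S)).card : ℝ) := fun S => by
    exact_mod_cast dS_card X x S
  have hC2 : ∀ S : Finset V, ((dC X x S).card : ℝ) ≤
      2 * (((X.tch x).filter (fun p => p.1 ∉ S)).card : ℝ) := fun S => by
    exact_mod_cast dC_card X x S
  by_cases hc : ∃ i, (X.Δ : ℝ) / 400 ≤ ((nb X.G x ∩ bs X.blk i).card : ℝ)
  · obtain ⟨i, hi⟩ := hc
    have e1 : ((dS X x {i}).card : ℝ) = ((nb X.G x ∩ bs X.blk i).card : ℝ) := by
      rw [dS_eq_sum, Finset.sum_singleton]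
    have e2 := hsplit {i}
    have e3 := hS2 {i}
    have e4 := hC2 {i}
    have e5 := hconc i
    have hy : y ≤ ((X.tch x).filter (fun p => p.1 ∈ ({i} : Finset V))).card := by
      rw [p5]
      exact Nat.ceil_le.2 (by linarith)
    have hz : ⌈(X.Δ : ℝ) / (16 * 10 ^ 6)⌉₊ ≤
        ((X.tch x).filter (fun p => p.1 ∉ ({i} : Finset V))).card :=
      Nat.ceil_le.2 (by linarith)
    obtain ⟨Y, hY, hYc⟩ := Finset.exists_subset_card_eq hy
    obtain ⟨Z, hZ, hZc⟩ := Finset.exists_subset_card_eq hz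
    have z1 : (X.Δ : ℝ) / (16 * 10 ^ 6) ≤ Z.card := by rw [hZc]; exact Nat.le_ceil _
    have z2 : (Z.card : ℝ) < (X.Δ : ℝ) / (16 * 10 ^ 6) + 1 := by
      rw [hZc]; exact Nat.ceil_lt_add_one (by positivity)
    refine pack_of X hPE3 x Y Z (hY.trans (filter_subset _ _)) (hZ.trans (filter_subset _ _)) ?_
      (card_pos.1 (by omega)) g r (by rw [hXh, hYc]; exact p1) p2 p3 ?_
    · intro p hp q hq hpq
      have h1 := (mem_filter.1 (hY hp)).2
      have h2 := (mem_filter.1 (hZ hq)).2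
      rw [hpq] at h1
      exact h2 h1
    · apply DE3.final p6 p7
      have c1 : ∑ p ∈ Y ∪ Z, X.T p.1 p.2 ≤ ∑ p ∈ Y, X.T p.1 p.2 + ∑ p ∈ Z, X.T p.1 p.2 := by
        have h0 : ∑ p ∈ Y ∪ Z, X.T p.1 p.2 = ∑ p ∈ Y, X.T p.1 p.2 + ∑ p ∈ Z, X.T p.1 p.2 := by
          apply Finset.sum_union
          rw [disjoint_left]
          intro p hp hq
          exact (mem_filter.1 (hZ hq)).2 (mem_filter.1 (hY hp)).2
        exact h0.le
      have c2 := sum_T_le_block X i Y (fun p hp => by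
        have := (mem_filter.1 (hY hp)).2
        rwa [mem_singleton] at this)
      have c3 := sum_T_le X Z
      rw [hYc] at c2
      nlinarith
  · push Not at hc
    have hb : (0 : ℝ) < (X.Δ : ℝ) / 400 := by positivity
    have hfull : ((dS X x univ).card : ℝ) = ((dn X.G X.blk x).card : ℝ) := by
      unfold dS
      congr 2
      rw [filter_eq_self]
      intro z hz
      unfold dn at hz
      obtain ⟨j, hj⟩ := Option.ne_none_iff_exists'.1 (mem_filter.1 hz).2
      exact ⟨j, mem_univ _, hj⟩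
    have hsum : ∀ S : Finset V, ∑ i ∈ S, ((nb X.G x ∩ bs X.blk i).card : ℝ) =
        ((dS X x S).card : ℝ) := fun S => by
      rw [dS_eq_sum]
      push_cast
      rfl
    rcases split (fun i => ((nb X.G x ∩ bs X.blk i).card : ℝ)) _ hb hc univ with h1 | ⟨S, -, h1, h2⟩
    · exfalso
      rw [hsum, hfull] at h1
      linarith
    rw [hsum] at h1 h2
    have e2 := hsplit S
    have e3 := hS2 S
    have e4 := hC2 S
    have hy : y ≤ ((X.tch x).filter (fun p => p.1 ∈ S)).card := by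
      rw [p5]
      exact Nat.ceil_le.2 (by linarith)
    have hz : y ≤ ((X.tch x).filter (fun p => p.1 ∉ S)).card := by
      rw [p5]
      exact Nat.ceil_le.2 (by linarith)
    obtain ⟨Y, hY, hYc⟩ := Finset.exists_subset_card_eq hy
    obtain ⟨Z, hZ, hZc⟩ := Finset.exists_subset_card_eq hz
    refine pack_of X hPE3 x Y Z (hY.trans (filter_subset _ _)) (hZ.trans (filter_subset _ _)) ?_
      (card_pos.1 (by omega)) g r (by rw [hXh, hYc]; exact p1) p2 p3 ?_
    · intro p hp q hq hpq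
      have h1 := (mem_filter.1 (hY hp)).2
      have h2 := (mem_filter.1 (hZ hq)).2
      rw [hpq] at h1
      exact h2 h1
    · apply DE3.final p6 p7
      have c3 := sum_T_le X (Y ∪ Z)
      have c4 : ((Y ∪ Z).card : ℝ) ≤ 2 * y := by
        have := card_union_le Y Z
        rw [hYc, hZc] at this
        have h5 : ((Y ∪ Z).card : ℝ) ≤ y + y := by exact_mod_cast this
        linarith
      rw [hZc]
      nlinarith


theorem stmt_SP1L (hSTEP : Stmt_STEP.{u}) : Stmt_SP1L.{u} := by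
  obtain ⟨κ, Δ1, hκ, hstep⟩ := hSTEP (1 / 10 ^ 30) (1 / 10 ^ 30) (by positivity) (by norm_num)
    (by positivity)
  refine ⟨min κ 1 / 10 ^ 29, by positivity, Δ1 + 10 ^ 31, ?_⟩
  intro k h V _ G Δ N t F blk c hΔ hN1 hN2 hdeg hF hdec hst hPP
  have hΔ1 : Δ1 ≤ Δ := (Nat.le_add_right _ _).trans ((Nat.le_mul_of_pos_right _
    (Nat.succ_pos _)).trans hΔ)
  have hbig : 10 ^ 31 * (k + h + 1) ≤ Δ :=
    (Nat.mul_le_mul_right _ (Nat.le_add_left _ _)).trans hΔ
  have hΔpos : 3 ≤ Δ := by omega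
  have hN2' : N ≤ 2 * Δ := by omega
  have hNΔ : Δ ≤ N := by omega
  have hΔ0 : (0 : ℝ) ≤ Δ := Nat.cast_nonneg _
  have hclt : ∀ z, blk z ≠ none → c z < N := fun z hz =>
    hst.lt z (by rw [SP1.mem_ss]; exact hz)
  let Pi : V → Prop := fun x => (Δ : ℝ) / 10 ^ 30 ≤ ((SP1.MiF G Δ blk x).card : ℝ)
  obtain ⟨c', U', hU', hc', hst', hload, hact, hidle⟩ := hstep G Δ N t F c (ss blk)
    {d : V × Option V // SP1.PF G Δ blk c d} {x : V // Pi x}
    (fun d => SP1.MaF G Δ blk c d.1) (fun d => SP1.BF G N F blk c d.1)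
    (fun d => SP1.KF G Δ blk d.1) (fun x => SP1.MiF G Δ blk x.1)
    hΔ1 hNΔ hN2' hdeg hst
    (by
      rintro ⟨d, hd⟩
      refine ⟨?_, (card_le_card (SP1.MaF_sub_nb d)).trans (hdeg _), SP1.MaF_sub_ss d⟩
      obtain ⟨x, _ | b⟩ := d
      · refine le_trans ?_ hd
        rw [one_div_mul_eq_div]
        apply div_le_div_of_nonneg_left hΔ0 (by positivity)
        norm_num
      · refine le_trans ?_ hd.1
        rw [one_div_mul_eq_div]
        apply div_le_div_of_nonneg_left hΔ0 (by positivity)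
        norm_num)
    (by
      rintro ⟨x, hx⟩
      refine ⟨?_, (card_le_card (SP1.MiF_sub_nb x)).trans (hdeg _), SP1.MiF_sub_ss x⟩
      rw [one_div_mul_eq_div]
      exact hx)
    (by
      rintro ⟨d, hd⟩ y hy
      exact ⟨SP1.BF_sub hclt d y, SP1.BF_card hF hNΔ hN2 hbig d hd y hy⟩)
    (by
      rintro ⟨d, hd⟩ y hy
      exact ⟨SP1.KF_sub d y, SP1.KF_card hdeg d y, SP1.KF_self d y hy⟩)
    (fun w => SP1.demand_count hΔpos hdeg Pi w)
  refine ⟨c', U', hU', hc', hst', hload, ?_, ?_, ?_⟩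
  · -- q1
    intro x hx hdx hty
    apply SP1.q1_of (hdeg x) hU' hc' hκ
    rcases hPP x hx hdx hty with h1 | h1
    · exact Or.inl h1
    · right
      refine ⟨h1, ?_⟩
      have h2 := hact ⟨(x, none), h1⟩
      refine h2.trans ?_
      have : (SP1.Wt G Δ blk c x).filter (fun y => y ∉ U' ∧ c' y ∈ SP1.BF G N F blk c (x, none) y ∧
          ∀ w ∈ SP1.KF G Δ blk (x, none) y, w ∈ ss blk → w ∉ U' → c' w ≠ c' y) ⊆
          (SP1.Wt G Δ blk c x).filter (fun y => y ∉ U' ∧ c' y ∈ (dn G blk x).image c) := by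
        intro y hy
        rw [mem_filter] at hy ⊢
        refine ⟨hy.1, hy.2.1, ?_⟩
        have h3 := hy.2.2.1
        change c' y ∈ (((dn G blk x).image c) \ ((dn G blk y).image c)) \ F y at h3
        rw [mem_sdiff, mem_sdiff] at h3
        exact h3.1.1
      exact_mod_cast card_le_card this
  · -- q2
    intro x hx hSb hs
    have e0 : SP1.MiF G Δ blk x = sbn G Δ blk x := by
      unfold SP1.MiF; rw [if_pos hs]
    have hPi : Pi x := by
      change (Δ : ℝ) / 10 ^ 30 ≤ ((SP1.MiF G Δ blk x).card : ℝ)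
      rw [e0]
      refine le_trans ?_ hs
      apply div_le_div_of_nonneg_left hΔ0 (by positivity)
      norm_num
    have h1 := hidle ⟨x, hPi⟩
    simp only at h1
    rw [e0] at h1
    refine le_trans ?_ h1
    calc min κ 1 / 10 ^ 29 * (Δ : ℝ) = min κ 1 * (Δ / 10 ^ 29) := by ring
      _ ≤ κ * (Δ / 10 ^ 29) :=
          mul_le_mul_of_nonneg_right (min_le_left _ _) (by positivity)
      _ ≤ κ * (Δ / (8 * 10 ^ 26)) := by
          apply mul_le_mul_of_nonneg_left _ hκ.le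
          apply div_le_div_of_nonneg_left hΔ0 (by positivity)
          norm_num
      _ ≤ _ := mul_le_mul_of_nonneg_left hs hκ.le
  · -- q3
    intro x hx hdx hSb hdn hsbn
    have hmis : 2 * (1 / 10 ^ 13 : ℝ) ^ 2 * (Δ : ℝ) ^ 2 ≤ ((mis G (nb G x)).card : ℝ) := by
      rcases hdec.sparse x hx with h1 | h1
      · exfalso
        have : (1 - (1 / 10 ^ 13 : ℝ) ^ 2) * (Δ : ℝ) = (1 - 1 / 10 ^ 26) * (Δ : ℝ) := by ring
        rw [this] at h1
        linarith
      · exact h1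
    have hL := SP1.Lx_card (by omega) (hdeg x) hdn hsbn hmis
    have e0 : SP1.MiF G Δ blk x = SP1.Lx G Δ blk x := by
      unfold SP1.MiF; rw [if_neg (not_le.2 hsbn)]
    have hPi : Pi x := by
      change (Δ : ℝ) / 10 ^ 30 ≤ ((SP1.MiF G Δ blk x).card : ℝ)
      rw [e0]
      refine le_trans ?_ hL
      apply div_le_div_of_nonneg_left hΔ0 (by positivity)
      norm_num
    have h1 := hidle ⟨x, hPi⟩
    simp only at h1
    rw [e0] at h1
    have hsub : SP1.Lx G Δ blk x ∩ U' ⊆ (nb G x ∩ U').filter (fun b =>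
        min κ 1 / 10 ^ 29 * (Δ : ℝ) ≤
          ((av G N F c' U' b ∩ (nb G x \ U').image c').card : ℝ)) := by
      intro b hb
      rw [mem_inter] at hb
      have hb1 := hb.1
      unfold SP1.Lx at hb1
      rw [mem_filter] at hb1
      rw [mem_filter, mem_inter]
      refine ⟨⟨SP1.mem_nb.2 (SP1.mem_Na.1 hb1.1).1, hb.2⟩, ?_⟩
      exact SP1.q3_of hc' hκ hb1.2 (hact ⟨(x, some b), ⟨hb1.2, hb1.1⟩⟩)
    have h2 : ((SP1.Lx G Δ blk x ∩ U').card : ℝ) ≤ (((nb G x ∩ U').filter (fun b =>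
        min κ 1 / 10 ^ 29 * (Δ : ℝ) ≤
          ((av G N F c' U' b ∩ (nb G x \ U').image c').card : ℝ))).card : ℝ) := by
      exact_mod_cast card_le_card hsub
    refine le_trans ?_ h2
    refine le_trans ?_ h1
    calc min κ 1 / 10 ^ 29 * (Δ : ℝ) = min κ 1 * (Δ / 10 ^ 29) := by ring
      _ ≤ κ * (Δ / 10 ^ 29) :=
          mul_le_mul_of_nonneg_right (min_le_left _ _) (by positivity)
      _ ≤ κ * (Δ / 10 ^ 26) := by
          apply mul_le_mul_of_nonneg_left _ hκ.le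
          apply div_le_div_of_nonneg_left hΔ0 (by positivity)
          norm_num
      _ ≤ _ := mul_le_mul_of_nonneg_left hL hκ.le


open SP2 in
theorem stmt_SP2L (hS : Stmt_STEP.{u}) : Stmt_SP2L.{u} := by
  intro γ hγ
  have hom : 0 < min (γ / 2) 1 := lt_min (by linarith) one_pos
  obtain ⟨κ, D1, hκ, hstep⟩ := hS (min (γ / 2) 1) γ hom (min_le_right _ _) hγ
  have hκγ : 0 < κ * γ := mul_pos hκ hγ
  refine ⟨min (1 / 10 ^ 26) (min γ (κ * γ)), lt_min (by norm_num) (lt_min hγ hκγ), D1 + 2, ?_⟩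
  intro k h V _ G Δ N t F blk c U hΔ' hN1 hN2 hdeg hF hU hP hA
  have hΔ : D1 + h + 2 ≤ Δ := by
    refine le_trans ?_ hΔ'
    have hexp : (D1 + 2) * (k + h + 1) = D1 * (k + h) + D1 + 2 * (k + h) + 2 := by ring
    have h0 : 0 ≤ D1 * (k + h) := Nat.zero_le _
    omega
  have hΔ0 : (0 : ℝ) ≤ Δ := Nat.cast_nonneg _
  set Q3 : V → Prop := fun x => blk x = none ∧ (1 - 1 / 10 ^ 26) * (Δ : ℝ) < ((nb G x).card : ℝ) ∧
    ¬ Sb G Δ blk x ∧ ((dn G blk x).card : ℝ) < Δ / (4 * 10 ^ 26) ∧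
    ((sbn G Δ blk x).card : ℝ) < Δ / (8 * 10 ^ 26) with hQ3
  set Q2 : V → Prop := fun x => blk x = none ∧ ¬ Sb G Δ blk x ∧
    (Δ : ℝ) / (8 * 10 ^ 26) ≤ ((sbn G Δ blk x).card : ℝ) with hQ2
  set Ma : V → Finset V := fun x => (nb G x ∩ U).filter (fun b =>
      γ * Δ ≤ ((av G N F c U b ∩ (nb G x \ U).image c).card : ℝ)) with hMa
  have hMaN : ∀ x, Ma x ⊆ nb G x := fun x y hy =>
    (mem_inter.1 (mem_filter.1 hy).1).1
  have hMiN : ∀ x, sbn G Δ blk x ∩ U ⊆ nb G x := fun x y hy =>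
    (mem_filter.1 (mem_inter.1 hy).1).1
  obtain ⟨c', U', h1, h2, h3, h4, h5, h6⟩ := hstep G Δ N t F c U {x // Q3 x} {x // Q2 x}
    (fun d => Ma d.1) (fun d y => av G N F c U y ∩ (nb G d.1 \ U).image c)
    (fun _ y => nb G y ∩ U) (fun d => sbn G Δ blk d.1 ∩ U) (by omega) (by omega) (by omega) hdeg hP
    (by
      rintro ⟨x, hx⟩
      refine ⟨hA.q3 x hx.1 hx.2.1 hx.2.2.1 hx.2.2.2.1 hx.2.2.2.2,
        (card_le_card (hMaN x)).trans (hdeg x), fun y hy => ?_⟩
      exact (mem_inter.1 (mem_filter.1 hy).1).2)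
    (by
      rintro ⟨x, hx⟩
      exact ⟨hA.q2 x hx.1 hx.2.1 hx.2.2, (card_le_card (hMiN x)).trans (hdeg x),
        fun y hy => (mem_inter.1 hy).2⟩)
    (by
      rintro ⟨x, hx⟩ y hy
      refine ⟨inter_subset_left, ?_⟩
      have e1 : γ * Δ ≤ ((av G N F c U y ∩ (nb G x \ U).image c).card : ℝ) := (mem_filter.1 hy).2
      refine le_trans ?_ e1
      have e2 : (N : ℝ) ≤ 2 * Δ := by
        have : N ≤ 2 * Δ := by omega
        exact_mod_cast this
      have e3 : min (γ / 2) 1 ≤ γ / 2 := min_le_left _ _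
      calc min (γ / 2) 1 * (N : ℝ) ≤ (γ / 2) * (2 * Δ) :=
            mul_le_mul e3 e2 (Nat.cast_nonneg _) (by linarith)
        _ = γ * Δ := by ring)
    (by
      rintro ⟨x, hx⟩ y hy
      refine ⟨Subset.rfl, ?_, ?_⟩
      · have := (card_le_card (inter_subset_left (s₁ := nb G y) (s₂ := U))).trans (hdeg y)
        omega
      · intro h
        exact G.loopless.irrefl y (mem_nb'.1 (mem_inter.1 h).1))
    (by
      intro w
      have c1 : (univ.filter (fun d : {x // Q3 x} => w ∈ Ma d.1 ∨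
          ∃ y ∈ Ma d.1, w ∈ nb G y ∩ U)).card ≤ Δ + Δ * Δ := by
        have hsub : (univ.filter (fun d : {x // Q3 x} => w ∈ Ma d.1 ∨
          ∃ y ∈ Ma d.1, w ∈ nb G y ∩ U)).image Subtype.val ⊆
            nb G w ∪ (nb G w).biUnion (fun y => nb G y) := by
          intro x hx
          rw [mem_image] at hx
          obtain ⟨d, hd, rfl⟩ := hx
          rw [mem_filter] at hd
          rw [mem_union]
          rcases hd.2 with h | ⟨y, hy, hw⟩
          · left
            exact mem_nb'.2 (mem_nb'.1 (hMaN _ h)).symm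
          · right
            rw [mem_biUnion]
            exact ⟨y, mem_nb'.2 (mem_nb'.1 (mem_inter.1 hw).1).symm,
              mem_nb'.2 (mem_nb'.1 (hMaN _ hy)).symm⟩
        rw [← card_image_of_injective _ Subtype.val_injective]
        refine (card_le_card hsub).trans ((card_union_le _ _).trans ?_)
        refine Nat.add_le_add (hdeg w) ?_
        refine card_biUnion_le.trans ?_
        refine (sum_le_card_nsmul _ _ Δ fun y _ => hdeg y).trans ?_
        rw [smul_eq_mul]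
        exact Nat.mul_le_mul_right _ (hdeg w)
      have c2 : (univ.filter (fun d : {x // Q2 x} => w ∈ sbn G Δ blk d.1 ∩ U)).card ≤ Δ := by
        have hsub : (univ.filter (fun d : {x // Q2 x} => w ∈ sbn G Δ blk d.1 ∩ U)).image
            Subtype.val ⊆ nb G w := by
          intro x hx
          rw [mem_image] at hx
          obtain ⟨d, hd, rfl⟩ := hx
          rw [mem_filter] at hd
          exact mem_nb'.2 (mem_nb'.1 (hMiN _ hd.2)).symm
        rw [← card_image_of_injective _ Subtype.val_injective]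
        exact (card_le_card hsub).trans (hdeg w)
      have hD2 : 2 ≤ Δ := by omega
      refine (Nat.add_le_add c1 c2).trans ?_
      have e1 : 2 * 2 ≤ Δ * Δ := Nat.mul_le_mul hD2 hD2
      have e2 : 2 * Δ ≤ Δ * Δ := Nat.mul_le_mul_right _ hD2
      have e3 : 4 * (Δ * Δ) ≤ (Δ * Δ) * (Δ * Δ) := Nat.mul_le_mul_right _ e1
      have e4 : Δ ^ 4 = (Δ * Δ) * (Δ * Δ) := by ring
      omega)
  refine ⟨c', U', h1, h2, h3, h4, ?_⟩
  set γ' := min (1 / 10 ^ 26) (min γ (κ * γ)) with hγ'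
  have g1 : γ' ≤ 1 / 10 ^ 26 := min_le_left _ _
  have g2 : γ' ≤ γ := (min_le_right _ _).trans (min_le_left _ _)
  have g3 : γ' ≤ κ * γ := (min_le_right _ _).trans (min_le_right _ _)
  -- the uncoloured neighbours which are not of type `Sb`
  have hfil : ∀ x, (((nb G x ∩ U').filter (fun y => ¬ Sb G Δ blk y)).card : ℝ) ≤
      ((nb G x ∩ U').card : ℝ) := fun x => by exact_mod_cast card_le_card (filter_subset _ _)
  intro x hx
  have hxn : blk x = none := by
    have := hU (h1 hx)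
    unfold ss at this
    simpa using this
  -- strong form
  have strong : (Sb G Δ blk x ∨ (nb G x).card ≤ (1 - 1 / 10 ^ 26) * (Δ : ℝ) ∨
      ((Δ : ℝ) / (4 * 10 ^ 26) ≤ ((dn G blk x).card : ℝ) ∧
      ((sbn G Δ blk x).card : ℝ) < Δ / (8 * 10 ^ 26))) →
      (((nb G x \ U').image c').card : ℝ) + ((nb G x ∩ U').card : ℝ) + γ' * Δ ≤ Δ := by
    intro hor
    by_cases hd : (1 - 1 / 10 ^ 26) * (Δ : ℝ) < ((nb G x).card : ℝ)
    · have hq : Sb G Δ blk x ∨ ((Δ : ℝ) / (4 * 10 ^ 26) ≤ ((dn G blk x).card : ℝ) ∧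
          ((sbn G Δ blk x).card : ℝ) < Δ / (8 * 10 ^ 26)) := by
        rcases hor with h | h | h
        · exact Or.inl h
        · exact absurd h (not_le.2 hd)
        · exact Or.inr h
      have e1 := hA.q1 x hxn hd hq
      have e2 : (((nb G x \ U').image c').card : ℝ) + ((nb G x ∩ U').card : ℝ) ≤
        (((nb G x \ U).image c).card : ℝ) + ((nb G x ∩ U).card : ℝ) := by
        exact_mod_cast persist G c c' U U' h1 h2 x
      have e3 := mul_le_mul_of_nonneg_right g2 hΔ0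
      linarith
    · push Not at hd
      have e2 : (((nb G x \ U').image c').card : ℝ) + ((nb G x ∩ U').card : ℝ) ≤
        ((nb G x).card : ℝ) := by exact_mod_cast trivial_bound G c' U' x
      have e3 := mul_le_mul_of_nonneg_right g1 hΔ0
      linarith
  constructor
  · intro hSb
    exact strong (Or.inl hSb)
  · intro hSb
    by_cases hcase : (nb G x).card ≤ (1 - 1 / 10 ^ 26) * (Δ : ℝ) ∨
      ((Δ : ℝ) / (4 * 10 ^ 26) ≤ ((dn G blk x).card : ℝ) ∧
      ((sbn G Δ blk x).card : ℝ) < Δ / (8 * 10 ^ 26))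
    · have e1 := strong (Or.inr hcase)
      have e2 := hfil x
      linarith
    · push Not at hcase
      obtain ⟨hd, hcase⟩ := hcase
      have hdegx : ((nb G x).card : ℝ) ≤ Δ := by exact_mod_cast hdeg x
      have e0 : (((nb G x \ U').card : ℕ) : ℝ) + ((nb G x ∩ U').card : ℝ) = ((nb G x).card : ℝ) := by
        exact_mod_cast card_sdiff_add_card_inter (nb G x) U'
      by_cases hs : (Δ : ℝ) / (8 * 10 ^ 26) ≤ ((sbn G Δ blk x).card : ℝ)
      · -- type q2
        have e1 := h6 ⟨x, hxn, hSb, hs⟩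
        have e2 := hA.q2 x hxn hSb hs
        have e3 : κ * (γ * Δ) ≤ κ * ((sbn G Δ blk x ∩ U).card : ℝ) :=
          mul_le_mul_of_nonneg_left e2 hκ.le
        have e4 : (((nb G x ∩ U').filter (fun y => ¬ Sb G Δ blk y)).card : ℝ) +
            ((sbn G Δ blk x ∩ U ∩ U').card : ℝ) ≤ ((nb G x ∩ U').card : ℝ) := by
          have : ((nb G x ∩ U').filter (fun y => ¬ Sb G Δ blk y)).card +
            (sbn G Δ blk x ∩ U ∩ U').card ≤ (nb G x ∩ U').card := by
            rw [← card_union_of_disjoint]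
            · apply card_le_card
              intro y hy
              rw [mem_union] at hy
              rcases hy with hy | hy
              · exact (mem_filter.1 hy).1
              · rw [mem_inter, mem_inter] at hy
                exact mem_inter.2 ⟨(mem_filter.1 hy.1.1).1, hy.2⟩
            · rw [disjoint_left]
              intro y hy hy'
              rw [mem_inter, mem_inter] at hy'
              exact (mem_filter.1 hy).2 (mem_filter.1 hy'.1.1).2
          exact_mod_cast this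
        have e5 : (((nb G x \ U').image c').card : ℝ) ≤ ((nb G x \ U').card : ℝ) := by
          exact_mod_cast card_image_le
        have e6 := mul_le_mul_of_nonneg_right g3 hΔ0
        nlinarith
      · -- type q3
        have hdn : ((dn G blk x).card : ℝ) < Δ / (4 * 10 ^ 26) := by
          by_contra hcon
          push Not at hcon
          exact hs (hcase hcon)
        push Not at hs
        have hq : Q3 x := ⟨hxn, hd, hSb, hdn, hs⟩
        have e1 := h5 ⟨x, hq⟩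
        have e2 := hA.q3 x hxn hd hSb hdn hs
        have e3 : κ * (γ * Δ) ≤ κ * ((Ma x).card : ℝ) := mul_le_mul_of_nonneg_left e2 hκ.le
        set Sx := (Ma x).filter (fun y => y ∉ U' ∧ c' y ∈ av G N F c U y ∩ (nb G x \ U).image c ∧
          ∀ w ∈ nb G y ∩ U, w ∈ U → w ∉ U' → c' w ≠ c' y) with hSx
        have e4 : ((nb G x \ U').image c').card + Sx.card ≤ (nb G x \ U').card := by
          have s1 : Sx ⊆ nb G x \ U' := by
            intro y hy
            rw [hSx, mem_filter] at hy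
            exact mem_sdiff.2 ⟨hMaN x hy.1, hy.2.1⟩
          have s2 : (nb G x \ U').image c' ⊆ ((nb G x \ U') \ Sx).image c' := by
            intro a ha
            rw [mem_image] at ha
            obtain ⟨y, hy, rfl⟩ := ha
            by_cases hyS : y ∈ Sx
            · rw [hSx, mem_filter] at hyS
              have h7 := (mem_inter.1 hyS.2.2.1).2
              rw [mem_image] at h7
              obtain ⟨z, hz, hzc⟩ := h7
              rw [mem_sdiff] at hz
              refine mem_image.2 ⟨z, mem_sdiff.2 ⟨mem_sdiff.2 ⟨hz.1, fun h => hz.2 (h1 h)⟩, ?_⟩, ?_⟩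
              · intro hzS
                rw [hSx, mem_filter] at hzS
                exact hz.2 (mem_inter.1 (mem_filter.1 hzS.1).1).2
              · rw [h2 z hz.2, hzc]
            · exact mem_image.2 ⟨y, mem_sdiff.2 ⟨hy, hyS⟩, rfl⟩
          have s3 := (card_le_card s2).trans card_image_le
          rw [card_sdiff_of_subset s1] at s3
          have s4 := card_le_card s1
          omega
        have e5 : (((nb G x \ U').image c').card : ℝ) + (Sx.card : ℝ) ≤ ((nb G x \ U').card : ℝ) := by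
          exact_mod_cast e4
        have e6 := mul_le_mul_of_nonneg_right g3 hΔ0
        have e7 := hfil x
        have e8 : κ * ((Ma x).card : ℝ) ≤ (Sx.card : ℝ) := e1
        nlinarith


namespace DPA


section
variable {V : Type u} [Fintype V]

/-- the outcome of the local lemma -/
lemma mainL (hL : Stmt_LLLK.{u}) (hS : Stmt_DSML.{u}) (h3 : Stmt_DE3L.{u}) (hB : Stmt_DEB.{u})
    (hE : Stmt_DES.{u}) : ∃ A : ℕ, 10 ^ 130 ≤ A ∧ ∀ k h : ℕ,
    ∀ {V : Type u} [Fintype V] (X : DCtx V) (t : V → V → ℕ)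
    (F : V → Finset ℕ), X.h = h → A * (k + h + 1) ≤ X.Δ → (∀ v w, t v w = t w v) →
    (∀ v, Set.InjOn (t v) (nb X.G v : Set V)) → (∀ v, (F v).card ≤ k) →
    (∀ j a, (((bs X.blk j).filter (fun z => X.e j a ∈ F z)).card : ℝ) ≤ X.Δ / 10 ^ 13) →
    ∃ ω : Cfg V (X.Δ + 1),
        (∀ z z', X.blk z ≠ none → X.blk z' ≠ none → X.G.Adj z z' → X.vc ω z ≠ X.vc ω z') ∧
        (∀ z, X.blk z ≠ none → X.vc ω z ∉ F z) ∧
        (∀ v, ((dn X.G X.blk v).filter (fun x => X.vc ω x = t v x)).card ≤ 20) ∧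
        ∀ r : V × V, good X r → alt1 X r.1 ω ∨ (r.2 ≠ r.1 ∧ alt2 X r.1 r.2 ω) := by
  obtain ⟨ΔB, HB⟩ := hB
  obtain ⟨ΔE, HE⟩ := hE
  refine ⟨ΔB + ΔE + 10 ^ 130, Nat.le_add_left _ _,
    fun k h {V} _ X t F hh hΔ hts hti hF hheavy => ?_⟩
  have HS := hS k (V := V)
  have H3 := h3 h (V := V)
  obtain ⟨P, hP⟩ : ∃ P : ℕ, P = 10 ^ 130 := ⟨_, rfl⟩
  have hP1 : 10 ^ 14 ≤ P := by
    rw [hP]
    exact Nat.pow_le_pow_right (by norm_num) (by norm_num)
  rw [← hP] at hΔ
  have hexp : (ΔB + ΔE + P) * (k + h + 1) =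
      (ΔB + ΔE) * (k + h) + ΔB + ΔE + P * (k + h) + P := by ring
  have h01 : 0 ≤ (ΔB + ΔE) * (k + h) := Nat.zero_le _
  have h02 : 10 ^ 14 * (k + h) ≤ P * (k + h) := Nat.mul_le_mul_right _ hP1
  rw [hexp] at hΔ
  have hΔs : k * 10 ^ 13 + 10 ^ 4 ≤ X.Δ := by omega
  have hΔ3 : 10 ^ 12 * (h + 2) ≤ X.Δ := by omega
  have hΔB : ΔB ≤ X.Δ := by omega
  have hΔE : ΔE ≤ X.Δ := by omega
  have hΔ4 : 10 ^ 130 ≤ X.Δ := by rw [← hP]; omega
  have hΔpos : 1 ≤ X.Δ := le_trans (Nat.one_le_pow _ _ (by norm_num)) hΔ4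
  obtain ⟨ι, iι, B, hB1, hB2, hB3⟩ := HS X t F hΔs hts hti hF hheavy
  set W0 : ℝ := Real.exp (-(X.Δ : ℝ) / 10 ^ 28) with hW0
  have hpack : ∀ r : V × V, Pack X.T (if good X r then X.tb r.1 ∪ X.tb r.2 else ∅)
      (if good X r then W0 else 0)
      (fun ω => good X r → alt1 X r.1 ω ∨ (r.2 ≠ r.1 ∧ alt2 X r.1 r.2 ω)) := by
    rintro ⟨x, w⟩
    by_cases hg : good X (x, w)
    · rw [if_pos hg, if_pos hg]
      rcases id hg with ⟨h1, h2⟩ | ⟨h1, h2 | h2⟩
      · simp only at h1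
        subst h1
        refine pack_mono subset_union_left le_rfl ?_
          (H3 X w hh hΔ3 h2.1 h2.2.1 h2.2.2)
        intro ω hω _
        exact Or.inl hω
      · obtain ⟨e1, e2, i, e3, e4⟩ := h2
        refine pack_mono (subset_refl _) le_rfl ?_ (HB X x w i hΔB e1 e2 e3 e4)
        intro ω hω _
        refine Or.inr ⟨?_, hω⟩
        exact (mem_nb.1 h1).ne'
      · obtain ⟨e1, e2, e3, e4⟩ := h2
        refine pack_mono (subset_refl _) le_rfl ?_ (HE X x w hΔE e1 e2 e3 e4)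
        intro ω hω _
        rcases hω with hω | hω
        · exact Or.inl hω
        · exact Or.inr ⟨(mem_nb.1 h1).ne', hω⟩
    · rw [if_neg hg, if_neg hg]
      refine pack_mono (subset_refl _) le_rfl ?_ (pack_trivial _ _)
      intro ω _ hg'
      exact (hg hg').elim
  have hsum : ∀ j, ∑ r ∈ univ.filter (fun r : V × V =>
      j ∈ (if good X r then X.tb r.1 ∪ X.tb r.2 else ∅)), (if good X r then W0 else 0) ≤
      1 / 10 ^ 13 := by
    intro j
    have hW0pos : 0 ≤ W0 := (Real.exp_pos _).le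
    have hsub : univ.filter (fun r : V × V =>
        j ∈ (if good X r then X.tb r.1 ∪ X.tb r.2 else ∅)) ⊆
        univ.filter (fun r : V × V => (r.2 = r.1 ∨ r.2 ∈ nb X.G r.1) ∧
        j ∈ X.tb r.1 ∪ X.tb r.2) := by
      intro r hr
      rw [mem_filter] at hr ⊢
      by_cases hg : good X r
      · rw [if_pos hg] at hr
        refine ⟨mem_univ _, ?_, hr.2⟩
        rcases id hg with ⟨h1, h2⟩ | ⟨h1, h2⟩
        · exact Or.inl h1
        · exact Or.inr h1
      · rw [if_neg hg] at hr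
        exact absurd hr.2 (notMem_empty _)
    calc ∑ r ∈ univ.filter (fun r : V × V =>
          j ∈ (if good X r then X.tb r.1 ∪ X.tb r.2 else ∅)), (if good X r then W0 else 0)
        ≤ ∑ r ∈ univ.filter (fun r : V × V =>
          j ∈ (if good X r then X.tb r.1 ∪ X.tb r.2 else ∅)), W0 := by
          apply sum_le_sum
          intro r _
          split_ifs
          · exact le_rfl
          · exact hW0pos
      _ = ((univ.filter (fun r : V × V =>
          j ∈ (if good X r then X.tb r.1 ∪ X.tb r.2 else ∅))).card : ℝ) * W0 := by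
          rw [sum_const, nsmul_eq_mul]
      _ ≤ (8 * (X.Δ : ℝ) ^ 3) * W0 := by
          apply mul_le_mul_of_nonneg_right _ hW0pos
          have h1 := card_pairs X hΔpos j
          have h2 : ((univ.filter (fun r : V × V =>
            j ∈ (if good X r then X.tb r.1 ∪ X.tb r.2 else ∅))).card : ℝ) ≤
            ((univ.filter (fun r : V × V => (r.2 = r.1 ∨ r.2 ∈ nb X.G r.1) ∧
              j ∈ X.tb r.1 ∪ X.tb r.2)).card : ℝ) := by
            exact_mod_cast card_le_card hsub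
          exact h2.trans h1
      _ ≤ 1 / 10 ^ 13 := exp_small hΔ4
  obtain ⟨ω, h1, h2⟩ := hL V (X.Δ + 1) ι (V × V) B X.T
    (fun r => if good X r then X.tb r.1 ∪ X.tb r.2 else ∅)
    (fun r => if good X r then W0 else 0)
    (fun r ω => good X r → alt1 X r.1 ω ∨ (r.2 ≠ r.1 ∧ alt2 X r.1 r.2 ω))
    hB1 (T_nonneg X) (T_le X) hpack (by
      intro j s a
      have e1 := hB2 j s a
      have e2 := hsum j
      have e3 := add_le_add e1 e2
      refine e3.trans (le_of_eq ?_)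
      ring)
  obtain ⟨g1, g2, g3⟩ := hB3 ω h1
  exact ⟨ω, g1, g2, g3, h2⟩


end

end DPA


/-- DPH: the dense phase, linear threshold. -/
theorem stmt_DPHL (hL : Stmt_LLLK.{u}) (hS : Stmt_DSML.{u}) (h3 : Stmt_DE3L.{u})
    (hB : Stmt_DEB.{u}) (hE : Stmt_DES.{u}) : Stmt_DPHL.{u} := by
  obtain ⟨A, h0, H⟩ := DPA.mainL hL hS h3 hB hE
  refine ⟨A, fun k h {V} _ X t F hh hΔ hts hti hF hheavy => ?_⟩
  obtain ⟨ω, g1, g2, g3, g4⟩ := H k h X t F hh hΔ hts hti hF hheavy
  have hΔ1 : 1 ≤ X.Δ := by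
    refine le_trans (Nat.one_le_pow 130 10 (by norm_num)) (h0.trans (le_trans ?_ hΔ))
    exact Nat.le_mul_of_pos_right _ (Nat.succ_pos _)
  refine ⟨X.vc ω, fun z _ => ?_, g1, g2, g3, ?_⟩
  · have := X.elt (X.pos z).1 (ω (X.pos z).1 (X.pos z).2)
    rw [hh] at this
    exact this
  · intro x hx hdeg hcase
    by_cases ha : DPA.alt1 X x ω
    · exact Or.inl ha
    · right
      rcases hcase with hc | ⟨hc1, hc2⟩
      · exact DPA.sb_case X hΔ1 x ω g4 hx hdeg hc.2 ha
      · by_cases hs : (X.Δ : ℝ) / 100 ≤ ((dn X.G X.blk x).card : ℝ)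
        · exact DPA.sb_case X hΔ1 x ω g4 hx hdeg hs ha
        · exact DPA.ns_case X hΔ1 x ω g4 hx hdeg (not_le.1 hs) hc1 hc2 ha


/-- large degrees -/
lemma mvt_largeL (hDEC : Stmt_DEC.{u}) (hCLS : Stmt_CLS.{u}) (hPAL : Stmt_PAL.{u})
    (hDPH : Stmt_DPHL.{u}) (hSP1 : Stmt_SP1L.{u}) (hSP2 : Stmt_SP2L.{u}) (hSP3 : Stmt_SP3.{u}) :
    ∃ A K : ℕ, ∀ k : ℕ,
    ∀ {V : Type u} [Fintype V] (G : SimpleGraph V) (Δ : ℕ)
    (t : V → V → ℕ) (F : V → Finset ℕ), A * (k + 1) ≤ Δ → (∀ v, (nb G v).card ≤ Δ) →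
    (∀ v w, t v w = t w v) → (∀ v, Set.InjOn (t v) (nb G v : Set V)) →
    (∀ v, (F v).card ≤ k) →
    ∃ c : V → ℕ, (∀ v, c v < Δ + (2 * 10 ^ 13 * k + 1)) ∧ (∀ v w, G.Adj v w → c v ≠ c w) ∧
      (∀ v, c v ∉ F v) ∧ ∀ v, ((nb G v).filter (fun x => c x = t v x)).card ≤ K := by
  obtain ⟨γ1, hγ1, A1, H1⟩ := hSP1
  obtain ⟨γ2, hγ2, A2, H2⟩ := hSP2 γ1 hγ1
  obtain ⟨K3, H3⟩ := hSP3 γ2 hγ2
  obtain ⟨A3, H4⟩ := hDPH
  refine ⟨3 * 10 ^ 13 * (A1 + A2 + A3) + 10 ^ 26, 20 + 1 + 1 + K3,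
    fun k {V} _ G Δ t F hΔ hd hts hti hF => ?_⟩
  set h : ℕ := 2 * 10 ^ 13 * k with hh
  have key : ∀ A : ℕ, A ≤ A1 + A2 + A3 → ∀ x : ℕ, x ≤ 3 * 10 ^ 13 * (k + 1) → A * x ≤ Δ := by
    intro A hA x hx
    refine le_trans (Nat.mul_le_mul hA hx) (le_trans ?_ hΔ)
    calc (A1 + A2 + A3) * (3 * 10 ^ 13 * (k + 1)) =
        3 * 10 ^ 13 * (A1 + A2 + A3) * (k + 1) := by ring
      _ ≤ (3 * 10 ^ 13 * (A1 + A2 + A3) + 10 ^ 26) * (k + 1) :=
        Nat.mul_le_mul_right _ (Nat.le_add_right _ _)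
  have hΔ1 : A1 * (k + (h + 1) + 1) ≤ Δ := key A1 (by omega) _ (by omega)
  have hΔ2 : A2 * (k + (h + 1) + 1) ≤ Δ := key A2 (by omega) _ (by omega)
  have hΔ3 : A3 * (k + h + 1) ≤ Δ := key A3 (by omega) _ (by omega)
  have hΔ4 : 10 ^ 26 ≤ Δ := by
    refine le_trans ?_ hΔ
    calc 10 ^ 26 ≤ 3 * 10 ^ 13 * (A1 + A2 + A3) + 10 ^ 26 := Nat.le_add_left _ _
      _ ≤ (3 * 10 ^ 13 * (A1 + A2 + A3) + 10 ^ 26) * (k + 1) :=
        Nat.le_mul_of_pos_right _ (Nat.succ_pos _)
  have hΔ4' : (10 : ℝ) ^ 26 ≤ Δ := by exact_mod_cast hΔ4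
  have hΔpos : 1 ≤ Δ := le_trans (by norm_num) hΔ4
  obtain ⟨blk, hdec⟩ := hDEC G Δ (1 / 10 ^ 6) (1 / 10 ^ 13) (by positivity) (by norm_num)
    (by norm_num) (by norm_num) (by
      have : (1 : ℝ) / (1 / 10 ^ 13) ^ 2 = 10 ^ 26 := by norm_num
      rw [this]; exact hΔ4') hd
  have hcls := fun j => hCLS G Δ (bs blk j) hΔpos hd (by
    have h1 := hdec.size j
    have h2 : (0 : ℝ) ≤ Δ := Nat.cast_nonneg _
    have h3 : ((1 : ℝ) + 1 / 10 ^ 13) * Δ ≤ 3 / 2 * Δ :=
      mul_le_mul_of_nonneg_right (by norm_num) h2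
    linarith)
  choose idxj hidx1 hidx2 using hcls
  have hpal := fun j => hPAL (bs blk j) (Δ + 1) k h (Δ / 10 ^ 13) F (by positivity) hF (by
    have h1 := hdec.size j
    have h2 : (0 : ℝ) ≤ Δ := Nat.cast_nonneg _
    have h3 : (0 : ℝ) ≤ k := Nat.cast_nonneg _
    have h4 : ((bs blk j).card : ℝ) ≤ 2 * Δ := by
      have : ((1 : ℝ) + 1 / 10 ^ 13) * Δ ≤ 2 * Δ :=
        mul_le_mul_of_nonneg_right (by norm_num) h2
      linarith
    have h5 : ((h : ℕ) : ℝ) = 2 * 10 ^ 13 * k := by rw [hh]; push_cast; ring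
    rw [h5]
    calc (k : ℝ) * ((bs blk j).card : ℝ) ≤ k * (2 * Δ) := mul_le_mul_of_nonneg_left h4 h3
      _ = (Δ : ℝ) / 10 ^ 13 * (2 * 10 ^ 13 * k) := by ring)
  choose e he1 he2 he3 using hpal
  let idx : V → Fin (Δ + 1) := fun z => idxj ((blk z).getD z) z
  have hidx : ∀ j z, z ∈ bs blk j → idx z = idxj j z := by
    intro j z hz
    have : blk z = some j := mvt_mem_bs.1 hz
    simp [idx, this]
  let X : DCtx V :=
    { G := G, Δ := Δ, blk := blk, idx := idx, h := h, e := e, deg := hd, dec := hdec,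
      cls2 := by
        intro j s
        have : (bs blk j).filter (fun z => idx z = s) =
            (bs blk j).filter (fun z => idxj j z = s) := by
          apply filter_congr
          intro z hz
          rw [hidx j z hz]
        rw [this]
        exact hidx1 j s
      clsind := by
        intro j z hz z' hz' hne hi
        rw [hidx j z hz, hidx j z' hz'] at hi
        exact hidx2 j z hz z' hz' hne hi
      einj := he1, elt := he2 }
  obtain ⟨c, hc1, hc2, hc3, hc4, hc5⟩ := H4 k h X t F rfl hΔ3 hts hti hF he3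
  have hN : Δ + k + 1 ≤ Δ + 1 + h := by
    have : k ≤ h := by rw [hh]; nlinarith
    omega
  obtain ⟨c1, U1, hU1, hc1e, hP1, hl1, hA1⟩ := H1 k (h + 1) G Δ (Δ + 1 + h) t F blk c hΔ1 hN (by omega)
    hd hF hdec ⟨fun x hx => hc1 x (fun hn => hx (mvt_mem_ss.2 hn)),
      fun x hx => hc3 x (fun hn => hx (mvt_mem_ss.2 hn)),
      fun x y hx hy hxy => hc2 x y (fun hn => hx (mvt_mem_ss.2 hn))
        (fun hn => hy (mvt_mem_ss.2 hn)) hxy⟩ hc5
  obtain ⟨c2, U2, hU2, hc2e, hP2, hl2, hA2⟩ := H2 k (h + 1) G Δ (Δ + 1 + h) t F blk c1 U1 hΔ2 hN (by omega)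
    hd hF hU1 hP1 hA1
  obtain ⟨c3, hc3e, hP3, hl3⟩ := H3 G Δ (Δ + 1 + h) k t F (Sb G Δ blk) c2 U2 hΔpos hN hd hF
    hP2 hA2
  refine ⟨c3, fun v => ?_, fun v w hvw => hP3.pc v w (notMem_empty _) (notMem_empty _) hvw,
    fun v => hP3.fb v (notMem_empty _), fun v => ?_⟩
  · have := hP3.lt v (notMem_empty _)
    omega
  · have hsub : (nb G v).filter (fun x => c3 x = t v x) ⊆
        (((dn G blk v).filter (fun x => c x = t v x) ∪
        (nb G v).filter (fun x => x ∈ ss blk ∧ x ∉ U1 ∧ c1 x = t v x)) ∪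
        (nb G v).filter (fun x => x ∈ U1 ∧ x ∉ U2 ∧ c2 x = t v x)) ∪
        (nb G v ∩ U2).filter (fun x => c3 x = t v x) := by
      intro x hx
      rw [mem_filter] at hx
      obtain ⟨hxn, hxt⟩ := hx
      by_cases h2 : x ∈ U2
      · exact mem_union_right _ (mem_filter.2 ⟨mem_inter.2 ⟨hxn, h2⟩, hxt⟩)
      · apply mem_union_left
        have e3 := hc3e x h2
        by_cases h1 : x ∈ U1
        · exact mem_union_right _ (mem_filter.2 ⟨hxn, h1, h2, by rw [← e3]; exact hxt⟩)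
        · apply mem_union_left
          have e2 := hc2e x h1
          by_cases h0 : x ∈ ss blk
          · exact mem_union_right _
              (mem_filter.2 ⟨hxn, h0, h1, by rw [← e2, ← e3]; exact hxt⟩)
          · apply mem_union_left
            have e1 := hc1e x h0
            refine mem_filter.2 ⟨?_, by rw [← e1, ← e2, ← e3]; exact hxt⟩
            unfold dn
            exact mem_filter.2 ⟨hxn, fun hn => h0 (mvt_mem_ss.2 hn)⟩
    refine (card_le_card hsub).trans ?_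
    refine (card_union_le _ _).trans ?_
    refine Nat.add_le_add ((card_union_le _ _).trans ?_) (hl3 v)
    refine Nat.add_le_add ((card_union_le _ _).trans ?_) (hl2 v)
    exact Nat.add_le_add (hc4 v) (hl1 v)


/-- MVT with linear constants -/
theorem stmt_MVTL (hDEC : Stmt_DEC.{u}) (hCLS : Stmt_CLS.{u}) (hPAL : Stmt_PAL.{u})
    (hDPH : Stmt_DPHL.{u}) (hSP1 : Stmt_SP1L.{u}) (hSP2 : Stmt_SP2L.{u}) (hSP3 : Stmt_SP3.{u}) :
    Stmt_MVTL.{u} := by
  obtain ⟨A, K, H1⟩ := mvt_largeL hDEC hCLS hPAL hDPH hSP1 hSP2 hSP3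
  refine ⟨2 * 10 ^ 13 + K + A, fun k {V} _ G Δ t F hd hts hti hF => ?_⟩
  have e1 : (2 * 10 ^ 13 + K + A) * (k + 1) =
      2 * 10 ^ 13 * k + 2 * 10 ^ 13 + K * k + K + A * (k + 1) := by ring
  have e2 : 0 ≤ K * k := Nat.zero_le _
  rcases Nat.lt_or_ge Δ (A * (k + 1)) with hc | hc
  · -- small degrees: greedy colouring
    obtain ⟨c, h1, h2, h3⟩ := greedy_vertex G Δ F k hd hF
    refine ⟨c, fun v => ?_, h2, h3, fun v => ?_⟩
    · have := h1 v
      omega
    · refine (card_filter_le _ _).trans ((hd v).trans ?_)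
      omega
  · obtain ⟨c, h1, h2, h3, h4⟩ := H1 k G Δ t F hc hd hts hti hF
    refine ⟨c, fun v => ?_, h2, h3, fun v => ?_⟩
    · have := h1 v
      omega
    · have := h4 v
      omega

theorem all_MVTL : Stmt_MVTL.{u} :=
  stmt_MVTL stmt_DEC stmt_CLS stmt_PAL
    (stmt_DPHL (stmt_LLLK stmt_AL) (stmt_DSML stmt_PRC stmt_PRD) (stmt_DE3L stmt_PE3)
      (stmt_DEB stmt_PE2) (stmt_DES stmt_PE1))
    (stmt_SP1L all_STEP) (stmt_SP2L all_STEP) (stmt_SP3 stmt_CNT)

end Pool.Agent.Work.MP_db9399_all
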