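import Pool.Agent.Work.MP_db9399_core_helper75.LIN
import Pool.Agent.Work.MP_db9399_core_helper75.Four
import Pool.Agent.Work.MP_db9399_co.BKW75

/-!
# Exact colouring of the edges at the heavy vertices

`B` is a set of vertices (heavy vertices and the vertices of the precoloured matching) such that
every vertex has at most `p` neighbours in `B`. All edges of `G` get colours such that the edges
outside `B` get colours below `D`, and every vertex of `B` sees different colours.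
-/

set_option autoImplicit false
set_option linter.unusedSectionVars false

namespace Pool.Agent.Work.MP_db9399_all

open Finset Classical

universe u

namespace Core

/-- the data -/
structure Inp (V : Type u) [Fintype V] where
  G : SimpleGraph V
  M : SimpleGraph V
  W : Finset V
  B : Finset V
  c0 : V → ℕ
  t0 : V → V → ℕ
  k : ℕ
  D : ℕ
  p : ℕ
  WB : W ⊆ B
  MG : ∀ a b, M.Adj a b → G.Adj a b
  MW : ∀ a b, M.Adj a b → a ∈ W
  Mu : ∀ a b c, M.Adj a b → M.Adj a c → b = c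
  WM : ∀ a ∈ W, ∀ b ∈ W, G.Adj a b → M.Adj a b
  t0s : ∀ a b, t0 a b = t0 b a
  c0p : ∀ a b, M.Adj a b → c0 a ≠ c0 b
  t0c : ∀ a b, M.Adj a b → t0 a b ≠ c0 a
  c0k : ∀ a ∈ W, c0 a < k
  t0k : ∀ a b, M.Adj a b → t0 a b < k
  deg : ∀ v, (nb G v).card + 1 ≤ k
  degB : ∀ v, (nb G v ∩ B).card ≤ p
  degL : ∀ v, v ∉ B → (nb G v).card + 1 ≤ D
  kD : D + (2 * p + 4) ≤ k

section
variable {V : Type u} [Fintype V]

lemma mem_nb {G : SimpleGraph V} {v w : V} : w ∈ nb G v ↔ G.Adj v w := by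
  simp [nb]

variable (I : Inp V)

/-- colours of the vertices of `B` -/
structure VC (cB : V → ℕ) : Prop where
  w : ∀ v ∈ I.W, cB v = I.c0 v
  lt : ∀ v ∈ I.B, cB v < I.k
  pr : ∀ a ∈ I.B, ∀ b ∈ I.B, I.G.Adj a b → cB a ≠ cB b

lemma stage1 : ∃ cB : V → ℕ, VC I cB := by
  obtain ⟨c, h1, h2, h3⟩ := greedy_ext (VIZ.inside I.G I.B) I.W I.c0 (fun _ => ∅) I.D
    (I.k - I.D) (fun v _ => by
      have hsub : nb (VIZ.inside I.G I.B) v ⊆ nb I.G v ∩ I.B := by
        intro w hw
        rw [mem_nb] at hw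
        rw [mem_inter, mem_nb]
        exact ⟨hw.1, hw.2.2⟩
      have e1 := card_le_card hsub
      have e2 := I.degB v
      have e3 := I.kD
      simp only [card_empty]
      omega)
  have e3 := I.kD
  refine ⟨c, h1, fun v hv => ?_, fun a ha b hb hab => ?_⟩
  · by_cases hw : v ∈ I.W
    · rw [h1 v hw]
      exact I.c0k v hw
    · have := (h2 v hw).2.1
      omega
  · by_cases haw : a ∈ I.W
    · by_cases hbw : b ∈ I.W
      · rw [h1 a haw, h1 b hbw]
        exact I.c0p a b (I.WM a haw b hbw hab)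
      · exact (h3 b a hbw ⟨hab.symm, hb, ha⟩).symm
    · exact h3 a b haw ⟨hab, ha, hb⟩

/-- colours of the matching edge at `a` -/
noncomputable def he (a : V) : Finset ℕ := (univ.filter (fun b => I.M.Adj a b)).image (I.t0 a)

lemma mem_he {a : V} {l : ℕ} : l ∈ he I a ↔ ∃ b, I.M.Adj a b ∧ I.t0 a b = l := by
  simp [he]

lemma card_he (a : V) : (he I a).card ≤ 1 := by
  refine card_image_le.trans ?_
  rw [card_le_one]
  intro b hb c hc
  exact I.Mu a b c (mem_filter.1 hb).2 (mem_filter.1 hc).2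

/-- the edges inside `B` which are not in the matching -/
def Sp : SimpleGraph V where
  Adj a b := I.G.Adj a b ∧ a ∈ I.B ∧ b ∈ I.B ∧ ¬ I.M.Adj a b
  symm := ⟨fun _ _ h => ⟨h.1.symm, h.2.2.1, h.2.1, fun h' => h.2.2.2 h'.symm⟩⟩
  loopless := ⟨fun a h => I.G.loopless.irrefl a h.1⟩

/-- colours of the edges inside `B` -/
structure EB (cB : V → ℕ) (tB : V → V → ℕ) : Prop where
  symm : ∀ a b, tB a b = tB b a
  m : ∀ a b, I.M.Adj a b → tB a b = I.t0 a b
  lt : ∀ a ∈ I.B, ∀ b ∈ I.B, I.G.Adj a b → tB a b < I.k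
  ne : ∀ a ∈ I.B, ∀ b ∈ I.B, I.G.Adj a b → tB a b ≠ cB a
  inj : ∀ a ∈ I.B, ∀ b ∈ I.B, ∀ c ∈ I.B, I.G.Adj a b → I.G.Adj a c → tB a b = tB a c → b = c

lemma stage2 {cB : V → ℕ} (hc : VC I cB) : ∃ tB : V → V → ℕ, EB I cB tB := by
  obtain ⟨t2, s1, s2, s3⟩ := stmt_GRE (Sp I) I.p 4 I.D
    (fun a b => ({cB a} ∪ {cB b}) ∪ (he I a ∪ he I b))
    (fun v => by
      have hsub : nb (Sp I) v ⊆ nb I.G v ∩ I.B := by
        intro w hw
        rw [mem_nb] at hw
        rw [mem_inter, mem_nb]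
        exact ⟨hw.1, hw.2.2.1⟩
      exact (card_le_card hsub).trans (I.degB v))
    (fun v w => by
      rw [union_comm {cB v}, union_comm (he I v)])
    (fun v w => by
      refine (card_union_le _ _).trans ?_
      have h1 : (({cB v} : Finset ℕ) ∪ {cB w}).card ≤ 2 := (card_union_le _ _).trans (by simp)
      have h2 : (he I v ∪ he I w).card ≤ 2 :=
        (card_union_le _ _).trans (Nat.add_le_add (card_he I v) (card_he I w))
      omega)
  have e3 := I.kD
  have hsp : ∀ a ∈ I.B, ∀ b ∈ I.B, I.G.Adj a b → ¬ I.M.Adj a b → (Sp I).Adj a b :=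
    fun a ha b hb h h' => ⟨h, ha, hb, h'⟩
  have hnot : ∀ a ∈ I.B, ∀ b ∈ I.B, I.G.Adj a b → ¬ I.M.Adj a b →
      t2 a b ≠ cB a ∧ t2 a b ∉ he I a := by
    intro a ha b hb h h'
    have := (s2 a b (hsp a ha b hb h h')).2.2
    simp only [mem_union, mem_singleton, not_or] at this
    exact ⟨this.1.1, this.2.1⟩
  refine ⟨fun a b => if I.M.Adj a b then I.t0 a b else t2 a b, fun a b => ?_, fun a b h => ?_,
    fun a ha b hb h => ?_, fun a ha b hb h => ?_, fun a ha b hb c hc' h h' e => ?_⟩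
  · simp only [I.M.adj_comm a b, I.t0s a b, s1 a b]
  · rw [if_pos h]
  · by_cases hm : I.M.Adj a b
    · rw [if_pos hm]; exact I.t0k a b hm
    · rw [if_neg hm]
      have := (s2 a b (hsp a ha b hb h hm)).2.1
      omega
  · by_cases hm : I.M.Adj a b
    · rw [if_pos hm, hc.w a (I.MW a b hm)]; exact I.t0c a b hm
    · rw [if_neg hm]
      exact (hnot a ha b hb h hm).1
  · by_cases hm : I.M.Adj a b
    · by_cases hm' : I.M.Adj a c
      · exact I.Mu a b c hm hm'
      · rw [if_pos hm, if_neg hm'] at e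
        exact absurd ((mem_he I).2 ⟨b, hm, e⟩) (hnot a ha c hc' h' hm').2
    · by_cases hm' : I.M.Adj a c
      · rw [if_neg hm, if_pos hm'] at e
        exact absurd ((mem_he I).2 ⟨c, hm', e.symm⟩) (hnot a ha b hb h hm).2
      · rw [if_neg hm, if_neg hm'] at e
        exact s3 a (mem_coe.2 (mem_nb.2 (hsp a ha b hb h hm)))
          (mem_coe.2 (mem_nb.2 (hsp a ha c hc' h' hm'))) e

/-- the colours used at `b` -/
noncomputable def A (cB : V → ℕ) (tB : V → V → ℕ) (b : V) : Finset ℕ :=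
  insert (cB b) ((nb I.G b ∩ I.B).image (tB b))

lemma card_A (cB : V → ℕ) (tB : V → V → ℕ) (b : V) :
    (A I cB tB b).card ≤ (nb I.G b ∩ I.B).card + 1 := by
  unfold A
  exact (card_insert_le _ _).trans (Nat.add_le_add_right card_image_le _)

/-- the graph of the edges which get low colours -/
def G1 (Low : V → Finset V) (_hLow : ∀ b, Low b ⊆ nb I.G b \ I.B) : SimpleGraph V where
  Adj a b := I.G.Adj a b ∧ ((a ∉ I.B ∧ b ∉ I.B) ∨ (a ∈ I.B ∧ b ∈ Low a) ∨
    (b ∈ I.B ∧ a ∈ Low b))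
  symm := ⟨fun a b h => ⟨h.1.symm, by tauto⟩⟩
  loopless := ⟨fun a h => I.G.loopless.irrefl a h.1⟩

/-- the result: `t1` colours the edges outside `B`, `st b y` is the colour of the edge from `b ∈ B`
to `y ∉ B` -/
structure Out (cB : V → ℕ) (tB st t1 : V → V → ℕ) : Prop where
  t1s : ∀ a b, t1 a b = t1 b a
  t1l : ∀ a b, a ∉ I.B → b ∉ I.B → I.G.Adj a b → t1 a b < I.D
  t1i : ∀ a b c, a ∉ I.B → b ∉ I.B → c ∉ I.B → I.G.Adj a b → I.G.Adj a c → t1 a b = t1 a c →
    b = c
  lt : ∀ b ∈ I.B, ∀ y, y ∉ I.B → I.G.Adj b y → st b y < I.k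
  ne : ∀ b ∈ I.B, ∀ y, y ∉ I.B → I.G.Adj b y → st b y ≠ cB b
  nB : ∀ b ∈ I.B, ∀ y, y ∉ I.B → I.G.Adj b y → ∀ x ∈ I.B, I.G.Adj b x → st b y ≠ tB b x
  inj : ∀ b ∈ I.B, ∀ y, y ∉ I.B → I.G.Adj b y → ∀ y', y' ∉ I.B → I.G.Adj b y' →
    st b y = st b y' → y = y'
  inj' : ∀ y, y ∉ I.B → ∀ b ∈ I.B, I.G.Adj b y → ∀ b' ∈ I.B, I.G.Adj b' y →
    st b y = st b' y → b = b'
  nt : ∀ y, y ∉ I.B → ∀ b ∈ I.B, I.G.Adj b y → ∀ x, x ∉ I.B → I.G.Adj y x → st b y ≠ t1 y x

lemma stage5 (cB : V → ℕ) (tB : V → V → ℕ) : ∃ st t1 : V → V → ℕ, Out I cB tB st t1 := by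
  have hlow : ∀ b, ∃ L : Finset V, L ⊆ nb I.G b \ I.B ∧
      L.card = min (nb I.G b \ I.B).card I.D := fun b =>
    exists_subset_card_eq (min_le_left _ _)
  choose Low hL1 hL2 using hlow
  have hLB : ∀ b y, y ∈ Low b → I.G.Adj b y ∧ y ∉ I.B := fun b y hy => by
    have := hL1 b hy
    rw [mem_sdiff, mem_nb] at this
    exact this
  obtain ⟨t1, ht1⟩ := VIZ.four (G1 I Low hL1) I.D I.B
    (fun v hv => by
      have hsub : nb (G1 I Low hL1) v ⊆ nb I.G v := fun w hw => mem_nb.2 (mem_nb.1 hw).1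
      exact (Nat.add_le_add_right (card_le_card hsub) 1).trans (I.degL v hv))
    (fun v hv => by
      have hsub : nb (G1 I Low hL1) v ⊆ Low v := by
        intro w hw
        rcases (mem_nb.1 hw).2 with h | h | h
        · exact absurd hv h.1
        · exact h.2
        · exact absurd hv (hLB w v h.2).2
      refine (card_le_card hsub).trans ?_
      rw [hL2]
      exact min_le_right _ _)
    (fun a ha b hb h => by
      rcases h.2 with h | h | h
      · exact h.1 ha
      · exact (hLB a b h.2).2 hb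
      · exact (hLB b a h.2).2 ha)
  set AA : V → Finset ℕ := A I cB tB with hAA
  have hkD := I.kD
  -- the edges which get high colours
  set E : Finset (V × V) := (I.B ×ˢ univ).filter (fun e => e.2 ∈ nb I.G e.1 \ I.B ∧
    (e.2 ∉ Low e.1 ∨ t1 e.1 e.2 ∈ AA e.1)) with hE
  have hmemE : ∀ b y, (b, y) ∈ E ↔ b ∈ I.B ∧ (I.G.Adj b y ∧ y ∉ I.B) ∧
      (y ∉ Low b ∨ t1 b y ∈ AA b) := by
    intro b y
    rw [hE, mem_filter, mem_product, mem_sdiff, mem_nb]
    simp
  have hadjLow : ∀ b ∈ I.B, ∀ y ∈ Low b, (G1 I Low hL1).Adj b y := fun b hb y hy =>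
    ⟨(hLB b y hy).1, Or.inr (Or.inl ⟨hb, hy⟩)⟩
  have hlist : ∀ b ∈ I.B, (E.filter (fun e' => e'.1 = b)).card ≤ (Ico I.D I.k \ AA b).card ∧
      I.p ≤ (Ico I.D I.k \ AA b).card := by
    intro b hb
    have e1 : (E.filter (fun e' => e'.1 = b)).card ≤
        (((nb I.G b \ I.B) \ Low b) ∪ (Low b).filter (fun y => t1 b y ∈ AA b)).card := by
      refine card_le_card_of_injOn (fun e => e.2) (fun e he => ?_) (fun e he e' he' h => ?_)
      · obtain ⟨b', y⟩ := e
        rw [mem_coe, mem_filter, hmemE] at he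
        obtain ⟨⟨h1, h2, h3⟩, h4⟩ := he
        simp only at h4
        subst h4
        simp only [coe_union, coe_sdiff, coe_filter, Set.mem_union, Set.mem_sdiff, mem_coe,
          Set.mem_ofPred_eq, mem_nb]
        by_cases hy : y ∈ Low b'
        · exact Or.inr ⟨hy, h3.resolve_left (fun h => h hy)⟩
        · exact Or.inl ⟨h2, hy⟩
      · rw [mem_coe, mem_filter] at he he'
        exact Prod.ext (he.2.trans he'.2.symm) h
    have e2 := card_union_le ((nb I.G b \ I.B) \ Low b) ((Low b).filter (fun y => t1 b y ∈ AA b))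
    have e3 : ((nb I.G b \ I.B) \ Low b).card = (nb I.G b \ I.B).card - (Low b).card :=
      card_sdiff_of_subset (hL1 b)
    have e4 : ((Low b).filter (fun y => t1 b y ∈ AA b)).card ≤
        ((AA b).filter (fun l => l < I.D)).card := by
      refine card_le_card_of_injOn (t1 b) (fun y hy => ?_) (fun y hy y' hy' h => ?_)
      · rw [mem_coe, mem_filter] at hy
        rw [mem_coe, mem_filter]
        exact ⟨hy.2, mem_range.1 (ht1.mem b y (hadjLow b hb y hy.1))⟩
      · rw [mem_coe, mem_filter] at hy hy'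
        exact ht1.inj b y y' (hadjLow b hb y hy.1) (hadjLow b hb y' hy'.1) h
    have e5 : (Ico I.D I.k \ AA b).card + (Ico I.D I.k ∩ AA b).card = I.k - I.D := by
      rw [card_sdiff_add_card_inter, Nat.card_Ico]
    have e6 : (Ico I.D I.k ∩ AA b).card ≤ ((AA b).filter (fun l => ¬ l < I.D)).card := by
      apply card_le_card
      intro l hl
      rw [mem_inter, mem_Ico] at hl
      rw [mem_filter]
      exact ⟨hl.2, not_lt.2 hl.1.1⟩
    have e7 := card_filter_add_card_filter_not (s := AA b) (fun l => l < I.D)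
    have e8 := card_A I cB tB b
    rw [← hAA] at e8
    have e9 := card_sdiff_add_card_inter (nb I.G b) I.B
    have e10 := I.deg b
    have e11 := I.degB b
    have e12 := hL2 b
    rcases le_total (nb I.G b \ I.B).card I.D with h | h
    · rw [min_eq_left h] at e12
      omega
    · rw [min_eq_right h] at e12
      omega
  obtain ⟨f, hf1, hf2⟩ := Pool.Agent.Work.MP_db9399_co.bkw (α := ℕ) E
    (fun e => Ico I.D I.k \ AA e.1) (by
      rintro ⟨b, y⟩ he
      have hb := ((hmemE b y).1 he).1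
      obtain ⟨g1, g2⟩ := hlist b hb
      refine max_le g1 (le_trans ?_ g2)
      refine le_trans ?_ (I.degB y)
      refine card_le_card_of_injOn (fun e => e.1) (fun e he => ?_) (fun e he e' he' h => ?_)
      · obtain ⟨b', y'⟩ := e
        rw [mem_coe, mem_filter, hmemE] at he
        obtain ⟨⟨h1, h2, h3⟩, h4⟩ := he
        simp only at h4
        subst h4
        simp only [coe_inter, Set.mem_inter_iff, mem_coe, mem_nb]
        exact ⟨h2.1.symm, h1⟩
      · rw [mem_coe, mem_filter] at he he'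
        exact Prod.ext h (he.2.trans he'.2.symm))
  have hfE : ∀ b y, (b, y) ∈ E → I.D ≤ f (b, y) ∧ f (b, y) < I.k ∧ f (b, y) ∉ AA b := by
    intro b y h
    have := hf1 _ h
    simp only [mem_sdiff, mem_Ico] at this
    exact ⟨this.1.1, this.1.2, this.2⟩
  have hnE : ∀ b ∈ I.B, ∀ y, y ∉ I.B → I.G.Adj b y → (b, y) ∉ E →
      (G1 I Low hL1).Adj b y ∧ t1 b y ∉ AA b := by
    intro b hb y hy hby hn
    rw [hmemE] at hn
    have h1 : ¬ (y ∉ Low b ∨ t1 b y ∈ AA b) := fun h => hn ⟨hb, ⟨hby, hy⟩, h⟩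
    push Not at h1
    exact ⟨hadjLow b hb y h1.1, h1.2⟩
  set st : V → V → ℕ := fun b y => if (b, y) ∈ E then f (b, y) else t1 b y with hst
  have hst1 : ∀ b y, (b, y) ∈ E → st b y = f (b, y) := fun b y h => if_pos h
  have hst2 : ∀ b y, (b, y) ∉ E → st b y = t1 b y := fun b y h => if_neg h
  have hstA : ∀ b ∈ I.B, ∀ y, y ∉ I.B → I.G.Adj b y → st b y ∉ AA b := by
    intro b hb y hy hby
    by_cases h : (b, y) ∈ E
    · rw [hst1 b y h]; exact (hfE b y h).2.2
    · rw [hst2 b y h]; exact (hnE b hb y hy hby h).2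
  have hlow1 : ∀ a b, (G1 I Low hL1).Adj a b → t1 a b < I.D := fun a b h =>
    mem_range.1 (ht1.mem a b h)
  refine ⟨st, t1, ht1.symm, fun a b ha hb h => hlow1 a b ⟨h, Or.inl ⟨ha, hb⟩⟩,
    fun a b c ha hb hc h h' e => ht1.inj a b c ⟨h, Or.inl ⟨ha, hb⟩⟩ ⟨h', Or.inl ⟨ha, hc⟩⟩ e,
    fun b hb y hy h => ?_, fun b hb y hy h e => ?_, fun b hb y hy h x hx hbx e => ?_,
    fun b hb y hy h y' hy' h' e => ?_, fun y hy b hb h b' hb' h' e => ?_,
    fun y hy b hb h x hx hyx e => ?_⟩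
  · by_cases hbE : (b, y) ∈ E
    · rw [hst1 b y hbE]; exact (hfE b y hbE).2.1
    · rw [hst2 b y hbE]
      have := hlow1 b y (hnE b hb y hy h hbE).1
      omega
  · apply hstA b hb y hy h
    rw [e, hAA]
    exact mem_insert_self _ _
  · apply hstA b hb y hy h
    rw [e, hAA]
    exact mem_insert_of_mem (mem_image.2 ⟨x, mem_inter.2 ⟨mem_nb.2 hbx, hx⟩, rfl⟩)
  · by_cases h1 : (b, y) ∈ E
    · by_cases h2 : (b, y') ∈ E
      · rw [hst1 b y h1, hst1 b y' h2] at e
        by_contra hne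
        exact hf2 _ h1 _ h2 (fun h => hne (Prod.ext_iff.1 h).2) (Or.inl rfl) e
      · rw [hst1 b y h1, hst2 b y' h2] at e
        have g1 := (hfE b y h1).1
        have g2 := hlow1 b y' (hnE b hb y' hy' h' h2).1
        omega
    · by_cases h2 : (b, y') ∈ E
      · rw [hst2 b y h1, hst1 b y' h2] at e
        have g1 := (hfE b y' h2).1
        have g2 := hlow1 b y (hnE b hb y hy h h1).1
        omega
      · rw [hst2 b y h1, hst2 b y' h2] at e
        exact ht1.inj b y y' (hnE b hb y hy h h1).1 (hnE b hb y' hy' h' h2).1 e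
  · by_cases h1 : (b, y) ∈ E
    · by_cases h2 : (b', y) ∈ E
      · rw [hst1 b y h1, hst1 b' y h2] at e
        by_contra hne
        exact hf2 _ h1 _ h2 (fun h => hne (Prod.ext_iff.1 h).1) (Or.inr rfl) e
      · rw [hst1 b y h1, hst2 b' y h2] at e
        have g1 := (hfE b y h1).1
        have g2 := hlow1 b' y (hnE b' hb' y hy h' h2).1
        omega
    · by_cases h2 : (b', y) ∈ E
      · rw [hst2 b y h1, hst1 b' y h2] at e
        have g1 := (hfE b' y h2).1
        have g2 := hlow1 b y (hnE b hb y hy h h1).1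
        omega
      · rw [hst2 b y h1, hst2 b' y h2, ht1.symm b y, ht1.symm b' y] at e
        exact ht1.inj y b b' (hnE b hb y hy h h1).1.symm (hnE b' hb' y hy h' h2).1.symm e
  · by_cases h1 : (b, y) ∈ E
    · rw [hst1 b y h1] at e
      have g1 := (hfE b y h1).1
      have g2 := hlow1 y x ⟨hyx, Or.inl ⟨hy, hx⟩⟩
      omega
    · rw [hst2 b y h1, ht1.symm b y] at e
      have := ht1.inj y b x (hnE b hb y hy h h1).1.symm ⟨hyx, Or.inl ⟨hy, hx⟩⟩ e
      subst this
      exact hx hb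

end

end Core

end Pool.Agent.Work.MP_db9399_all
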